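import Pool.Agent.Q189.MG.Game
import Pool.Agent.H614R2.DPO.TP2
import Pool.Agent.H614R2.DPO.TB
import Pool.Agent.H614R2.DPO.TG2

/-!
# The game as an algorithm
-/

set_option autoImplicit false

namespace Pool.Agent.Q189.MG

open Relation Pool.Agent.NPC Pool.Agent.H614R2.DPO

/-- tight steps -/
def ttB (w : ℕ → ℕ → Option ℕ) (g h : ℕ → ℕ) (D u v : ℕ) : Bool :=
  (w u v).elim false (fun c => decide (g u + c + h v = D))

/-- steps inside a level -/
def hhB (w : ℕ → ℕ → Option ℕ) (al be : ℕ → ℕ) (u v : ℕ) : Bool :=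
  (w u v).elim false
    (fun c => decide (al u + be u = al v + be v) && decide (al v = al u + c))

/-- steps inside a level, arcs or edges -/
def hB (wA wE : ℕ → ℕ → Option ℕ) (al be : ℕ → ℕ) (u v : ℕ) : Bool :=
  hhB wA al be u v || hhB wE al be u v

/-- the same without the edge from `a` to `b` -/
def hdB (wA wE : ℕ → ℕ → Option ℕ) (al be : ℕ → ℕ) (a b u v : ℕ) : Bool :=
  hhB wA al be u v || (hhB wE al be u v && !(decide (u = a) && decide (v = b)))

/-- forced edges -/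
def frcB (wA wE : ℕ → ℕ → Option ℕ) (al be : ℕ → ℕ) (R : List ℕ) (x x1 u v : ℕ) : Bool :=
  hhB wE al be u v && !(decide (x1 ∈ reachG (hdB wA wE al be u v) R x))

/-- steps inside a level which do not contradict a forced edge -/
def hfB (wA wE : ℕ → ℕ → Option ℕ) (al be : ℕ → ℕ) (R : List ℕ) (x x1 u v : ℕ) : Bool :=
  hhB wA al be u v || (hhB wE al be u v && !(frcB wA wE al be R x x1 v u))

/-- compatible walks in a level -/
def kB (wA wE : ℕ → ℕ → Option ℕ) (al be : ℕ → ℕ) (R : List ℕ) (x x1 y1 y : ℕ) : Bool :=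
  decide (x1 ∈ reachG (hB wA wE al be) R x) &&
    decide (y ∈ reachG (hfB wA wE al be R x x1) R y1)

/-- jumps of the first walk -/
def j1B (wA wE : ℕ → ℕ → Option ℕ) (al be ga : ℕ → ℕ) (D u v : ℕ) : Bool :=
  (ttB wA al ga D u v || ttB wE al ga D u v) && decide (al u + be u < al v + be v)

/-- jumps of the second walk -/
def j2B (wA wE : ℕ → ℕ → Option ℕ) (al be de : ℕ → ℕ) (D' u v : ℕ) : Bool :=
  (ttB wA de be D' u v || ttB wE de be D' u v) && decide (al v + be v < al u + be u)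

/-- conflict of two jumps -/
def cfB (wA : ℕ → ℕ → Option ℕ) (al be ga de : ℕ → ℕ) (D D' x1 x' y1 y' : ℕ) : Bool :=
  decide (x1 = y1) && (decide (x' = y') && (!(ttB wA al ga D x1 x') && !(ttB wA de be D' y' y1)))

/-- moves -/
def mvB (wA wE : ℕ → ℕ → Option ℕ) (al be ga de : ℕ → ℕ) (R : List ℕ) (D D' : ℕ)
    (p q : ℕ × ℕ) : Bool :=
  (decide (al p.1 + be p.1 < al p.2 + be p.2) && (decide (q.2 = p.2) &&
    R.any (fun x1 => decide (x1 ∈ reachG (hB wA wE al be) R p.1) &&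
      j1B wA wE al be ga D x1 q.1))) ||
  ((decide (al p.2 + be p.2 < al p.1 + be p.1) && (decide (q.1 = p.1) &&
    R.any (fun y1 => decide (p.2 ∈ reachG (hB wA wE al be) R y1) &&
      j2B wA wE al be de D' q.2 y1))) ||
  (decide (al p.1 + be p.1 = al p.2 + be p.2) &&
    R.any (fun x1 => R.any (fun y1 => kB wA wE al be R p.1 x1 y1 p.2 &&
      (j1B wA wE al be ga D x1 q.1 && (j2B wA wE al be de D' q.2 y1 &&
        !(cfB wA al be ga de D D' x1 q.1 y1 q.2)))))))

/-- final positions -/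
def fnB (wA wE : ℕ → ℕ → Option ℕ) (al be : ℕ → ℕ) (R : List ℕ) (t : ℕ) (p : ℕ × ℕ) : Bool :=
  decide (al p.1 + be p.1 = al t + be t) && (decide (al p.2 + be p.2 = al t + be t) &&
    kB wA wE al be R p.1 t t p.2)

/-- the game -/
def gmB (wA wE : ℕ → ℕ → Option ℕ) (al be ga de : ℕ → ℕ) (R : List ℕ) (D D' s t : ℕ) : Bool :=
  (reachG (mvB wA wE al be ga de R D D') (R.flatMap (fun x => R.map (fun y => (x, y))))
    (s, s)).any (fnB wA wE al be R t)

/-! ### Polynomial time -/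

section poly

variable {α : Type} [TEnc α] {wA wE w : α → ℕ → ℕ → Option ℕ} {al be ga de g h : α → ℕ → ℕ}
  {R : α → List ℕ} {D D' s t u v x x1 y y1 x' y' a' b' : α → ℕ}

attribute [local fun_prop] p2_poly_reachG
attribute [local irreducible] reachG

theorem poly_ttB (hw : Poly (fun p : α × ℕ × ℕ => w p.1 p.2.1 p.2.2))
    (hg : Poly (fun p : α × ℕ => g p.1 p.2)) (hh : Poly (fun p : α × ℕ => h p.1 p.2))
    (hD : Poly D) (hu : Poly u) (hv : Poly v) :
    Poly (fun a => ttB (w a) (g a) (h a) (D a) (u a) (v a)) := by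
  unfold ttB
  fun_prop

attribute [local fun_prop] poly_ttB
attribute [local irreducible] ttB

theorem poly_hhB (hw : Poly (fun p : α × ℕ × ℕ => w p.1 p.2.1 p.2.2))
    (hg : Poly (fun p : α × ℕ => g p.1 p.2)) (hh : Poly (fun p : α × ℕ => h p.1 p.2))
    (hu : Poly u) (hv : Poly v) :
    Poly (fun a => hhB (w a) (g a) (h a) (u a) (v a)) := by
  unfold hhB
  fun_prop

attribute [local fun_prop] poly_hhB
attribute [local irreducible] hhB

theorem poly_hB (hA : Poly (fun p : α × ℕ × ℕ => wA p.1 p.2.1 p.2.2))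
    (hE : Poly (fun p : α × ℕ × ℕ => wE p.1 p.2.1 p.2.2))
    (hal : Poly (fun p : α × ℕ => al p.1 p.2)) (hbe : Poly (fun p : α × ℕ => be p.1 p.2))
    (hu : Poly u) (hv : Poly v) :
    Poly (fun a => hB (wA a) (wE a) (al a) (be a) (u a) (v a)) := by
  unfold hB
  fun_prop

attribute [local fun_prop] poly_hB
attribute [local irreducible] hB

theorem poly_hdB (hA : Poly (fun p : α × ℕ × ℕ => wA p.1 p.2.1 p.2.2))
    (hE : Poly (fun p : α × ℕ × ℕ => wE p.1 p.2.1 p.2.2))
    (hal : Poly (fun p : α × ℕ => al p.1 p.2)) (hbe : Poly (fun p : α × ℕ => be p.1 p.2))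
    (ha : Poly a') (hb : Poly b') (hu : Poly u) (hv : Poly v) :
    Poly (fun a => hdB (wA a) (wE a) (al a) (be a) (a' a) (b' a) (u a) (v a)) := by
  unfold hdB
  fun_prop

attribute [local fun_prop] poly_hdB
attribute [local irreducible] hdB

theorem poly_frcB (hA : Poly (fun p : α × ℕ × ℕ => wA p.1 p.2.1 p.2.2))
    (hE : Poly (fun p : α × ℕ × ℕ => wE p.1 p.2.1 p.2.2))
    (hal : Poly (fun p : α × ℕ => al p.1 p.2)) (hbe : Poly (fun p : α × ℕ => be p.1 p.2))
    (hR : Poly R) (hx : Poly x) (hx1 : Poly x1) (hu : Poly u) (hv : Poly v) :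
    Poly (fun a => frcB (wA a) (wE a) (al a) (be a) (R a) (x a) (x1 a) (u a) (v a)) := by
  unfold frcB
  fun_prop

attribute [local fun_prop] poly_frcB
attribute [local irreducible] frcB

theorem poly_hfB (hA : Poly (fun p : α × ℕ × ℕ => wA p.1 p.2.1 p.2.2))
    (hE : Poly (fun p : α × ℕ × ℕ => wE p.1 p.2.1 p.2.2))
    (hal : Poly (fun p : α × ℕ => al p.1 p.2)) (hbe : Poly (fun p : α × ℕ => be p.1 p.2))
    (hR : Poly R) (hx : Poly x) (hx1 : Poly x1) (hu : Poly u) (hv : Poly v) :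
    Poly (fun a => hfB (wA a) (wE a) (al a) (be a) (R a) (x a) (x1 a) (u a) (v a)) := by
  unfold hfB
  fun_prop

attribute [local fun_prop] poly_hfB
attribute [local irreducible] hfB

theorem poly_kB (hA : Poly (fun p : α × ℕ × ℕ => wA p.1 p.2.1 p.2.2))
    (hE : Poly (fun p : α × ℕ × ℕ => wE p.1 p.2.1 p.2.2))
    (hal : Poly (fun p : α × ℕ => al p.1 p.2)) (hbe : Poly (fun p : α × ℕ => be p.1 p.2))
    (hR : Poly R) (hx : Poly x) (hx1 : Poly x1) (hy1 : Poly y1) (hy : Poly y) :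
    Poly (fun a => kB (wA a) (wE a) (al a) (be a) (R a) (x a) (x1 a) (y1 a) (y a)) := by
  unfold kB
  fun_prop

attribute [local fun_prop] poly_kB
attribute [local irreducible] kB

theorem poly_j1B (hA : Poly (fun p : α × ℕ × ℕ => wA p.1 p.2.1 p.2.2))
    (hE : Poly (fun p : α × ℕ × ℕ => wE p.1 p.2.1 p.2.2))
    (hal : Poly (fun p : α × ℕ => al p.1 p.2)) (hbe : Poly (fun p : α × ℕ => be p.1 p.2))
    (hga : Poly (fun p : α × ℕ => ga p.1 p.2)) (hD : Poly D) (hu : Poly u) (hv : Poly v) :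
    Poly (fun a => j1B (wA a) (wE a) (al a) (be a) (ga a) (D a) (u a) (v a)) := by
  unfold j1B
  fun_prop

attribute [local fun_prop] poly_j1B
attribute [local irreducible] j1B

theorem poly_j2B (hA : Poly (fun p : α × ℕ × ℕ => wA p.1 p.2.1 p.2.2))
    (hE : Poly (fun p : α × ℕ × ℕ => wE p.1 p.2.1 p.2.2))
    (hal : Poly (fun p : α × ℕ => al p.1 p.2)) (hbe : Poly (fun p : α × ℕ => be p.1 p.2))
    (hga : Poly (fun p : α × ℕ => ga p.1 p.2)) (hD : Poly D) (hu : Poly u) (hv : Poly v) :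
    Poly (fun a => j2B (wA a) (wE a) (al a) (be a) (ga a) (D a) (u a) (v a)) := by
  unfold j2B
  fun_prop

attribute [local fun_prop] poly_j2B
attribute [local irreducible] j2B

theorem poly_cfB (hA : Poly (fun p : α × ℕ × ℕ => wA p.1 p.2.1 p.2.2))
    (hal : Poly (fun p : α × ℕ => al p.1 p.2)) (hbe : Poly (fun p : α × ℕ => be p.1 p.2))
    (hga : Poly (fun p : α × ℕ => ga p.1 p.2)) (hde : Poly (fun p : α × ℕ => de p.1 p.2))
    (hD : Poly D) (hD' : Poly D') (hx1 : Poly x1) (hx' : Poly x') (hy1 : Poly y1)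
    (hy' : Poly y') :
    Poly (fun a => cfB (wA a) (al a) (be a) (ga a) (de a) (D a) (D' a) (x1 a) (x' a) (y1 a)
      (y' a)) := by
  unfold cfB
  fun_prop

attribute [local fun_prop] poly_cfB
attribute [local irreducible] cfB

theorem poly_mvB (hA : Poly (fun p : α × ℕ × ℕ => wA p.1 p.2.1 p.2.2))
    (hE : Poly (fun p : α × ℕ × ℕ => wE p.1 p.2.1 p.2.2))
    (hal : Poly (fun p : α × ℕ => al p.1 p.2)) (hbe : Poly (fun p : α × ℕ => be p.1 p.2))
    (hga : Poly (fun p : α × ℕ => ga p.1 p.2)) (hde : Poly (fun p : α × ℕ => de p.1 p.2))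
    (hR : Poly R) (hD : Poly D) (hD' : Poly D') {p q : α → ℕ × ℕ} (hp : Poly p) (hq : Poly q) :
    Poly (fun a => mvB (wA a) (wE a) (al a) (be a) (ga a) (de a) (R a) (D a) (D' a) (p a)
      (q a)) := by
  unfold mvB
  fun_prop

attribute [local fun_prop] poly_mvB
attribute [local irreducible] mvB

theorem poly_fnB (hA : Poly (fun p : α × ℕ × ℕ => wA p.1 p.2.1 p.2.2))
    (hE : Poly (fun p : α × ℕ × ℕ => wE p.1 p.2.1 p.2.2))
    (hal : Poly (fun p : α × ℕ => al p.1 p.2)) (hbe : Poly (fun p : α × ℕ => be p.1 p.2))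
    (hR : Poly R) (ht : Poly t) {p : α → ℕ × ℕ} (hp : Poly p) :
    Poly (fun a => fnB (wA a) (wE a) (al a) (be a) (R a) (t a) (p a)) := by
  unfold fnB
  fun_prop

attribute [local fun_prop] poly_fnB
attribute [local irreducible] fnB

theorem poly_gmB (hA : Poly (fun p : α × ℕ × ℕ => wA p.1 p.2.1 p.2.2))
    (hE : Poly (fun p : α × ℕ × ℕ => wE p.1 p.2.1 p.2.2))
    (hal : Poly (fun p : α × ℕ => al p.1 p.2)) (hbe : Poly (fun p : α × ℕ => be p.1 p.2))
    (hga : Poly (fun p : α × ℕ => ga p.1 p.2)) (hde : Poly (fun p : α × ℕ => de p.1 p.2))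
    (hR : Poly R) (hD : Poly D) (hD' : Poly D') (hs : Poly s) (ht : Poly t) :
    Poly (fun a => gmB (wA a) (wE a) (al a) (be a) (ga a) (de a) (R a) (D a) (D' a) (s a)
      (t a)) := by
  unfold gmB
  fun_prop

end poly

end Pool.Agent.Q189.MG
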