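import Pool.Agent.Q189.MG.Stmt

/-!
# Correctness of the algorithm
-/

set_option autoImplicit false

namespace Pool.Agent.Q189.MG

open Relation Pool.Agent.NPC
open Pool.Agent.H614R2.DPO (entry denP reachG bfd Wk getD_ofFn den_dvd denP_pos scale mem_reachG
  wk_iff_rtg)

section

variable {n : ℕ} (M : MixedGraph n) (s t : Fin n)

open Classical in
theorem entryE (u v : ℕ) : entry (dataOf M s t).1 u v =
    if h : u < n ∧ v < n then
      (if M.E.Adj ⟨u, h.1⟩ ⟨v, h.2⟩ then some (M.lenE s(⟨u, h.1⟩, ⟨v, h.2⟩)) else none)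
    else none := by
  unfold entry dataOf
  dsimp only
  rw [getD_ofFn]
  by_cases hu : u < n
  · rw [dif_pos hu, getD_ofFn]
    by_cases hv : v < n
    · rw [dif_pos hv, dif_pos ⟨hu, hv⟩]
    · rw [dif_neg hv, dif_neg (fun h => hv h.2)]
  · rw [dif_neg hu, dif_neg (fun h => hu h.1)]
    simp

open Classical in
theorem entryA (u v : ℕ) : entry (dataOf M s t).2.1 u v =
    if h : u < n ∧ v < n then
      (if M.A ⟨u, h.1⟩ ⟨v, h.2⟩ then some (M.lenA ⟨u, h.1⟩ ⟨v, h.2⟩) else none)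
    else none := by
  unfold entry dataOf
  dsimp only
  rw [getD_ofFn]
  by_cases hu : u < n
  · rw [dif_pos hu, getD_ofFn]
    by_cases hv : v < n
    · rw [dif_pos hv, dif_pos ⟨hu, hv⟩]
    · rw [dif_neg hv, dif_neg (fun h => hv h.2)]
  · rw [dif_neg hu, dif_neg (fun h => hu h.1)]
    simp

theorem wE_adj (u v : Fin n) (h : M.E.Adj u v) :
    ∃ c : ℕ, wEd (dataOf M s t) u v = some c ∧
      (c : ℚ) = M.lenE s(u, v) * (cd (dataOf M s t) : ℚ) := by
  have h1 : entry (dataOf M s t).1 u v = some (M.lenE s(u, v)) := by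
    rw [entryE, dif_pos ⟨u.2, v.2⟩, if_pos h]
  refine ⟨_, by rw [wEd, wS, h1, Option.map_some], ?_⟩
  exact scale (M.lenE_nonneg _ h) ((den_dvd h1).trans (Dvd.intro _ rfl))

theorem wA_adj (u v : Fin n) (h : M.A u v) :
    ∃ c : ℕ, wAd (dataOf M s t) u v = some c ∧
      (c : ℚ) = M.lenA u v * (cd (dataOf M s t) : ℚ) := by
  have h1 : entry (dataOf M s t).2.1 u v = some (M.lenA u v) := by
    rw [entryA, dif_pos ⟨u.2, v.2⟩, if_pos h]
  refine ⟨_, by rw [wAd, wS, h1, Option.map_some], ?_⟩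
  exact scale (M.lenA_nonneg _ _ h) ((den_dvd h1).trans (Dvd.intro_left _ rfl))

theorem wE_ne (u v : ℕ) (h : wEd (dataOf M s t) u v ≠ none) :
    ∃ (hu : u < n) (hv : v < n), M.E.Adj ⟨u, hu⟩ ⟨v, hv⟩ := by
  rw [wEd, wS, entryE] at h
  by_cases huv : u < n ∧ v < n
  · rw [dif_pos huv] at h
    by_cases ha : M.E.Adj ⟨u, huv.1⟩ ⟨v, huv.2⟩
    · exact ⟨huv.1, huv.2, ha⟩
    · rw [if_neg ha] at h
      exact absurd rfl h
  · rw [dif_neg huv] at h
    exact absurd rfl h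

theorem wA_ne (u v : ℕ) (h : wAd (dataOf M s t) u v ≠ none) :
    ∃ (hu : u < n) (hv : v < n), M.A ⟨u, hu⟩ ⟨v, hv⟩ := by
  rw [wAd, wS, entryA] at h
  by_cases huv : u < n ∧ v < n
  · rw [dif_pos huv] at h
    by_cases ha : M.A ⟨u, huv.1⟩ ⟨v, huv.2⟩
    · exact ⟨huv.1, huv.2, ha⟩
    · rw [if_neg ha] at h
      exact absurd rfl h
  · rw [dif_neg huv] at h
    exact absurd rfl h

theorem wM_lt : WLt (wMd (dataOf M s t)) n := by
  intro u v h
  obtain ⟨c, hc⟩ := Option.ne_none_iff_exists'.1 h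
  rcases om_some hc with h | h
  · obtain ⟨hu, hv, _⟩ := wE_ne M s t u v (by rw [h]; simp)
    exact ⟨hu, hv⟩
  · obtain ⟨hu, hv, _⟩ := wA_ne M s t u v (by rw [h]; simp)
    exact ⟨hu, hv⟩

theorem cd_pos : 0 < cd (dataOf M s t) := Nat.mul_pos (denP_pos _) (denP_pos _)

/-- a relation on the vertices, on the natural numbers -/
def lft (O : Fin n → Fin n → Prop) (a b : ℕ) : Prop :=
  ∃ (ha : a < n) (hb : b < n), O ⟨a, ha⟩ ⟨b, hb⟩

variable {M} {O : Fin n → Fin n → Prop}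

theorem Walk.nk {u v : Fin n} {d : ℚ} (h : Walk M O u v d) :
    ∃ k : ℕ, Nk (wEd (dataOf M s t)) (wAd (dataOf M s t)) (lft O) u v k ∧
      (k : ℚ) = d * (cd (dataOf M s t) : ℚ) := by
  induction h with
  | nil u => exact ⟨0, Nk.nil _, by simp⟩
  | @arc u v x d h _ ih =>
    obtain ⟨k, h1, h2⟩ := ih
    obtain ⟨c, h3, h4⟩ := wA_adj M s t u v h
    refine ⟨c + k, Nk.arc h3 h1, ?_⟩
    rw [Nat.cast_add, h2, h4]
    ring
  | @edge u v x d h hO _ ih =>
    obtain ⟨k, h1, h2⟩ := ih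
    obtain ⟨c, h3, h4⟩ := wE_adj M s t u v h
    refine ⟨c + k, Nk.edge h3 ⟨u.2, v.2, hO⟩ h1, ?_⟩
    rw [Nat.cast_add, h2, h4]
    ring

theorem Nk.walk {x y k : ℕ}
    (h : Nk (wEd (dataOf M s t)) (wAd (dataOf M s t)) (lft O) x y k) :
    ∀ hx : x < n, ∃ hy : y < n,
      Walk M O ⟨x, hx⟩ ⟨y, hy⟩ ((k : ℚ) / (cd (dataOf M s t) : ℚ)) := by
  have hN : (cd (dataOf M s t) : ℚ) ≠ 0 := by exact_mod_cast (cd_pos M s t).ne'
  induction h with
  | nil u =>
    intro hx
    refine ⟨hx, ?_⟩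
    have := Walk.nil (M := M) (O := O) ⟨u, hx⟩
    simpa using this
  | @arc u v x c d h1 _ ih =>
    intro hx
    obtain ⟨hu, hv, hA⟩ := wA_ne M s t u v (by rw [h1]; simp)
    obtain ⟨hy, h2⟩ := ih hv
    obtain ⟨c', h3, h4⟩ := wA_adj M s t ⟨u, hu⟩ ⟨v, hv⟩ hA
    have h5 : c = c' := by
      have : some c = some c' := h1.symm.trans h3
      exact Option.some.inj this
    refine ⟨hy, ?_⟩
    have h6 := Walk.arc hA h2
    have h7 : M.lenA ⟨u, hu⟩ ⟨v, hv⟩ + (d : ℚ) / (cd (dataOf M s t) : ℚ) =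
        ((c + d : ℕ) : ℚ) / (cd (dataOf M s t) : ℚ) := by
      rw [Nat.cast_add, h5, h4, add_div, mul_div_assoc, div_self hN, mul_one]
    rw [h7] at h6
    exact h6
  | @edge u v x c d h1 hO _ ih =>
    intro hx
    obtain ⟨hu, hv, hA⟩ := wE_ne M s t u v (by rw [h1]; simp)
    obtain ⟨_, _, hO⟩ := hO
    obtain ⟨hy, h2⟩ := ih hv
    obtain ⟨c', h3, h4⟩ := wE_adj M s t ⟨u, hu⟩ ⟨v, hv⟩ hA
    have h5 : c = c' := by
      have : some c = some c' := h1.symm.trans h3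
      exact Option.some.inj this
    refine ⟨hy, ?_⟩
    have h6 := Walk.edge hA hO h2
    have h7 : M.lenE s(⟨u, hu⟩, ⟨v, hv⟩) + (d : ℚ) / (cd (dataOf M s t) : ℚ) =
        ((c + d : ℕ) : ℚ) / (cd (dataOf M s t) : ℚ) := by
      rw [Nat.cast_add, h5, h4, add_div, mul_div_assoc, div_self hN, mul_one]
    rw [h7] at h6
    exact h6

theorem Walk.both' {u v : Fin n} {d : ℚ} (h : Walk M O u v d) : Walk M both u v d := by
  induction h with
  | nil u => exact Walk.nil u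
  | arc h _ ih => exact Walk.arc h ih
  | edge h _ _ ih => exact Walk.edge h trivial ih

theorem Walk.ge {u v : Fin n} {d : ℚ} (h : Walk M O u v d) :
    ∃ k : ℕ, (k : ℚ) = d * (cd (dataOf M s t) : ℚ) ∧
      bfd (wMd (dataOf M s t)) n u v ≤ k := by
  obtain ⟨k, h1, h2⟩ := h.nk s t
  obtain ⟨k', h3, h4⟩ := h1.wk
  have := bfd_le' (wM_lt M s t) u.2 h4
  exact ⟨k, h2, this.trans h3⟩

theorem wk_walk {u v : Fin n} {k : ℕ} (h : Wk (wMd (dataOf M s t)) u v k) :
    Walk M both u v ((k : ℚ) / (cd (dataOf M s t) : ℚ)) := by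
  have h1 := (wk_nk h).mono (O' := lft (both (n := n))) fun a b c hc _ => by
    obtain ⟨ha, hb, _⟩ := wE_ne M s t a b (by rw [hc]; simp)
    exact ⟨ha, hb, trivial⟩
  obtain ⟨_, h2⟩ := h1.walk s t u.2
  exact h2

theorem walk_wk {u v : Fin n} {d : ℚ} (h : Walk M both u v d) :
    ∃ k, Wk (wMd (dataOf M s t)) u v k := by
  obtain ⟨k, h1, _⟩ := h.nk s t
  obtain ⟨k', _, h4⟩ := h1.wk
  exact ⟨k', h4⟩

theorem both_min {u v : Fin n} {d : ℚ} (h : Walk M both u v d) :
    Walk M both u v ((bfd (wMd (dataOf M s t)) n u v : ℚ) / (cd (dataOf M s t) : ℚ)) := by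
  obtain ⟨k, hk⟩ := walk_wk s t h
  exact wk_walk s t (bfd_wk' (wM_lt M s t) u.2 hk)

theorem walk_ge {u v : Fin n} {d : ℚ} (h : Walk M O u v d) :
    (bfd (wMd (dataOf M s t)) n u v : ℚ) / (cd (dataOf M s t) : ℚ) ≤ d := by
  obtain ⟨k, h1, h2⟩ := h.ge s t
  have hN : (0 : ℚ) < (cd (dataOf M s t) : ℚ) := by exact_mod_cast cd_pos M s t
  rw [div_le_iff₀ hN, ← h1]
  exact_mod_cast h2

theorem dist_iff (u v : Fin n) : dist M O u v = dist M both u v ↔
    ∀ d, Walk M both u v d →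
      Walk M O u v ((bfd (wMd (dataOf M s t)) n u v : ℚ) / (cd (dataOf M s t) : ℚ)) := by
  have hN : (0 : ℚ) < (cd (dataOf M s t) : ℚ) := by exact_mod_cast cd_pos M s t
  set m := bfd (wMd (dataOf M s t)) n u v with hm
  constructor
  · intro h d hd
    by_contra hno
    have h1 : dist M both u v ≤ ((((m : ℚ) / (cd (dataOf M s t) : ℚ) : ℚ) : ℝ) : EReal) :=
      iInf₂_le _ (both_min s t hd)
    have h2 : (((((m + 1 : ℕ) : ℚ) / (cd (dataOf M s t) : ℚ) : ℚ) : ℝ) : EReal) ≤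
        dist M O u v := by
      refine le_iInf₂ fun d' hd' => ?_
      obtain ⟨k, h3, h4⟩ := hd'.ge s t
      have h5 : k ≠ m := by
        intro h6
        apply hno
        have h7 : (m : ℚ) / (cd (dataOf M s t) : ℚ) = d' := by
          rw [div_eq_iff hN.ne', ← h3, h6]
        rw [h7]
        exact hd'
      have h6 : m + 1 ≤ k := by omega
      have h7 : (((m + 1 : ℕ) : ℚ) / (cd (dataOf M s t) : ℚ)) ≤ d' := by
        rw [div_le_iff₀ hN, ← h3]
        exact_mod_cast h6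
      exact_mod_cast h7
    have h3 := h2.trans (h.le.trans h1)
    have h4 : (((m + 1 : ℕ) : ℚ) / (cd (dataOf M s t) : ℚ)) ≤
        (m : ℚ) / (cd (dataOf M s t) : ℚ) := by exact_mod_cast h3
    rw [div_le_div_iff_of_pos_right hN] at h4
    have h5 : m + 1 ≤ m := by exact_mod_cast h4
    omega
  · intro h
    have hmono : dist M both u v ≤ dist M O u v :=
      le_iInf₂ fun d hd => iInf₂_le _ hd.both'
    refine le_antisymm ?_ hmono
    refine le_iInf₂ fun d hd => ?_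
    have h1 := h d hd
    have h2 : dist M O u v ≤ ((((m : ℚ) / (cd (dataOf M s t) : ℚ) : ℚ) : ℝ) : EReal) :=
      iInf₂_le _ h1
    refine h2.trans ?_
    have h3 := walk_ge s t hd
    exact_mod_cast h3

theorem reach_walk (u v : Fin n) : (v : ℕ) ∈ reachG (fun a b => (wMd (dataOf M s t) a b).isSome)
    (List.range n) u ↔ ∃ d, Walk M both u v d := by
  have h1 : (v : ℕ) ∈ reachG (fun a b => (wMd (dataOf M s t) a b).isSome)
      (List.range n) u ↔
      ReflTransGen (fun a b => (wMd (dataOf M s t) a b).isSome = true) u v := by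
    refine reach_iff (List.mem_range.2 u.2) (fun a b _ => Iff.rfl) (fun a b _ h => ?_)
    rw [List.mem_range]
    exact (wM_lt M s t a b (by rw [Option.isSome_iff_ne_none] at h; exact h)).2
  rw [h1, ← wk_iff_rtg]
  constructor
  · rintro ⟨k, hk⟩
    exact ⟨_, wk_walk s t hk⟩
  · rintro ⟨d, hd⟩
    exact walk_wk s t hd

variable (M)

/-- orientations and walks -/
theorem orient_iff (m1 m2 : ℕ) (R1 R2 : Prop) :
    (∃ O, Anti O ∧ (R1 → Nk (wEd (dataOf M s t)) (wAd (dataOf M s t)) O s t m1) ∧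
      (R2 → Nk (wEd (dataOf M s t)) (wAd (dataOf M s t)) O t s m2)) ↔
    ∃ O, IsOrientation M O ∧ (R1 → Walk M O s t ((m1 : ℚ) / (cd (dataOf M s t) : ℚ))) ∧
      (R2 → Walk M O t s ((m2 : ℚ) / (cd (dataOf M s t) : ℚ))) := by
  constructor
  · rintro ⟨O1, hO1, h1, h2⟩
    refine ⟨fun u v => M.E.Adj u v ∧ (O1 u v ∨ (¬ O1 v u ∧ u < v)), ⟨fun u v h => h.1, ?_⟩, ?_, ?_⟩
    · intro u v h
      have hne : u ≠ v := h.ne
      by_cases a1 : O1 u v
      · left
        refine ⟨⟨h, Or.inl a1⟩, ?_⟩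
        rintro ⟨_, h3 | ⟨h3, _⟩⟩
        · exact hO1 _ _ a1 h3
        · exact h3 a1
      · by_cases a2 : O1 v u
        · right
          refine ⟨⟨h.symm, Or.inl a2⟩, ?_⟩
          rintro ⟨_, h3 | ⟨h3, _⟩⟩
          · exact a1 h3
          · exact h3 a2
        · rcases lt_or_gt_of_ne hne with h4 | h4
          · left
            refine ⟨⟨h, Or.inr ⟨a2, h4⟩⟩, ?_⟩
            rintro ⟨_, h3 | ⟨_, h3⟩⟩
            · exact a2 h3
            · exact absurd h3 (not_lt.2 h4.le)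
          · right
            refine ⟨⟨h.symm, Or.inr ⟨a1, h4⟩⟩, ?_⟩
            rintro ⟨_, h3 | ⟨_, h3⟩⟩
            · exact a1 h3
            · exact absurd h3 (not_lt.2 h4.le)
    · intro hR
      obtain ⟨_, h3⟩ := ((h1 hR).mono (O' := lft (fun u v : Fin n => M.E.Adj u v ∧
        (O1 u v ∨ (¬ O1 v u ∧ u < v)))) fun a b c hc hO => by
          obtain ⟨ha, hb, hab⟩ := wE_ne M s t a b (by rw [hc]; simp)
          exact ⟨ha, hb, hab, Or.inl hO⟩).walk s t s.2
      exact h3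
    · intro hR
      obtain ⟨_, h3⟩ := ((h2 hR).mono (O' := lft (fun u v : Fin n => M.E.Adj u v ∧
        (O1 u v ∨ (¬ O1 v u ∧ u < v)))) fun a b c hc hO => by
          obtain ⟨ha, hb, hab⟩ := wE_ne M s t a b (by rw [hc]; simp)
          exact ⟨ha, hb, hab, Or.inl hO⟩).walk s t t.2
      exact h3
  · rintro ⟨O, hO, h1, h2⟩
    have hN : (cd (dataOf M s t) : ℚ) ≠ 0 := by exact_mod_cast (cd_pos M s t).ne'
    refine ⟨lft O, ?_, ?_, ?_⟩
    · rintro a b ⟨ha, hb, h3⟩ ⟨_, _, h4⟩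
      rcases hO.2 _ _ (hO.1 _ _ h3) with h5 | h5
      · exact h5.2 h4
      · exact h5.2 h3
    · intro hR
      obtain ⟨k, h3, h4⟩ := (h1 hR).nk s t
      rw [div_mul_cancel₀ _ hN] at h4
      have h5 : k = m1 := by exact_mod_cast h4
      rw [← h5]
      exact h3
    · intro hR
      obtain ⟨k, h3, h4⟩ := (h2 hR).nk s t
      rw [div_mul_cancel₀ _ hN] at h4
      have h5 : k = m2 := by exact_mod_cast h4
      rw [← h5]
      exact h3

/-- **Correctness of the algorithm.** -/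
theorem alg_correct : alg (dataOf M s t) = true ↔ Preservable M s t := by
  have hn : (dataOf M s t).1.length = n := by simp [dataOf]
  have hs' : (dataOf M s t).2.2.1 = s := rfl
  have ht' : (dataOf M s t).2.2.2 = t := rfl
  have hw := wM_lt M s t
  have e1 : Preservable M s t ↔ ∃ O, IsOrientation M O ∧
      ((∃ d, Walk M both s t d) → Walk M O s t
        ((bfd (wMd (dataOf M s t)) n s t : ℚ) / (cd (dataOf M s t) : ℚ))) ∧
      ((∃ d, Walk M both t s d) → Walk M O t s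
        ((bfd (wMd (dataOf M s t)) n t s : ℚ) / (cd (dataOf M s t) : ℚ))) := by
    unfold Preservable
    refine exists_congr fun O => and_congr Iff.rfl ?_
    rw [dist_iff s t s t, dist_iff s t t s]
    constructor
    · rintro ⟨h1, h2⟩
      exact ⟨fun ⟨d, hd⟩ => h1 d hd, fun ⟨d, hd⟩ => h2 d hd⟩
    · rintro ⟨h1, h2⟩
      exact ⟨fun d hd => h1 ⟨d, hd⟩, fun d hd => h2 ⟨d, hd⟩⟩
  rw [e1, ← orient_iff M s t]
  unfold alg
  rw [hn, hs', ht', Bool.or_eq_true, Bool.not_eq_true', ← Bool.not_eq_true, Bool.and_eq_true,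
    decide_eq_true_eq, decide_eq_true_eq, reach_walk, reach_walk]
  by_cases r1 : ∃ d, Walk M both s t d
  · by_cases r2 : ∃ d, Walk M both t s d
    · obtain ⟨k1, hk1⟩ := walk_wk s t r1.choose_spec
      obtain ⟨k2, hk2⟩ := walk_wk s t r2.choose_spec
      have hG := cfg_ok (wE := wEd (dataOf M s t)) (wA := wAd (dataOf M s t)) hw s.2 t.2 hk1 hk2
      have hb : Bd (cfg (wEd (dataOf M s t)) (wAd (dataOf M s t)) n s t) n := by
        constructor
        · intro u v c hc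
          obtain ⟨hu, hv, _⟩ := wA_ne M s t u v
            (by rw [show wAd (dataOf M s t) u v = some c from hc]; simp)
          exact ⟨hu, hv⟩
        · intro u v c hc
          obtain ⟨hu, hv, _⟩ := wE_ne M s t u v
            (by rw [show wEd (dataOf M s t) u v = some c from hc]; simp)
          exact ⟨hu, hv⟩
      have h1 := gmB_iff hb hG (s := s) s.2 t.2
      have h2 := comp_cfg_iff (wE := wEd (dataOf M s t)) (wA := wAd (dataOf M s t)) hw s.2 t.2
        hk1 hk2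
      rw [h2] at h1
      constructor
      · rintro (h | h)
        · exact absurd ⟨r1, r2⟩ h
        · obtain ⟨O, hO, h3, h4⟩ := h1.1 h
          exact ⟨O, hO, fun _ => h3, fun _ => h4⟩
      · rintro ⟨O, hO, h3, h4⟩
        exact Or.inr (h1.2 ⟨O, hO, h3 r1, h4 r2⟩)
    · obtain ⟨k1, hk1⟩ := walk_wk s t r1.choose_spec
      obtain ⟨O, hO, h3⟩ := one_walk (wE := wEd (dataOf M s t)) (wA := wAd (dataOf M s t)) hw
        s.2 t.2 hk1
      refine iff_of_true (Or.inl fun h => r2 h.2) ⟨O, hO, fun _ => h3, fun h => absurd h r2⟩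
  · by_cases r2 : ∃ d, Walk M both t s d
    · obtain ⟨k2, hk2⟩ := walk_wk s t r2.choose_spec
      obtain ⟨O, hO, h3⟩ := one_walk (wE := wEd (dataOf M s t)) (wA := wAd (dataOf M s t)) hw
        t.2 s.2 hk2
      refine iff_of_true (Or.inl fun h => r1 h.1) ⟨O, hO, fun h => absurd h r1, fun _ => h3⟩
    · refine iff_of_true (Or.inl fun h => r1 h.1) ⟨fun _ _ => False, fun _ _ h => h.elim,
        fun h => absurd h r1, fun h => absurd h r2⟩

end

end Pool.Agent.Q189.MG
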