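import Pool.Agent.Q189.MG.Spec

/-!
# Distances in directed graphs, and the data of the game
-/

set_option autoImplicit false

namespace Pool.Agent.Q189.MG

open Relation Pool.Agent.NPC Pool.Agent.H614R2.DPO

/-- the ends of edges are less than `n` -/
def WLt (w : ℕ → ℕ → Option ℕ) (n : ℕ) : Prop := ∀ u v, w u v ≠ none → u < n ∧ v < n

section bf

variable {w : ℕ → ℕ → Option ℕ} {n s : ℕ}

theorem B_lt' (hw : WLt w n) (hs : s < n) {L : List ℕ} {d : ℕ} (h : B_L w s L d) :
    ∀ x ∈ L, x < n := by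
  induction h with
  | nil => intro x hx; rw [List.mem_singleton.1 hx]; exact hs
  | @cons u v c d L h1 h2 ih =>
    intro x hx
    rcases List.mem_cons.1 hx with rfl | hx
    · exact (hw u x (by rw [h2]; simp)).2
    · exact ih x hx

theorem B_length' (hw : WLt w n) (hs : s < n) {L : List ℕ} {d : ℕ} (h : B_L w s L d)
    (hn : L.Nodup) : L.length ≤ n := by
  rw [← List.toFinset_card_of_nodup hn, ← Finset.card_range n]
  apply Finset.card_le_card
  intro x hx
  exact Finset.mem_range.2 (B_lt' hw hs h x (List.mem_toFinset.1 hx))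

theorem B_complete' (hw : WLt w n) (hs : s < n) {L : List ℕ} {d : ℕ} (h : B_L w s L d) :
    ∀ r v, L.head? = some v → L.length ≤ r + 1 → (B_D w n s r).getD v 0 ≤ d := by
  have key : ∀ r, (B_D w n s r).getD s 0 ≤ 0 := by
    intro r
    induction r with
    | zero => rw [B_zero hs]; simp
    | succ r ih => exact (B_succ_le hs r).trans ih
  induction h with
  | nil =>
    intro r v hv _
    have : s = v := by simpa using hv
    subst this
    exact key r
  | @cons u v c d L h1 h2 ih =>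
    intro r x hx hr
    have hvx : v = x := by simpa using hx
    subst hvx
    have hlt := hw u v (by rw [h2]; simp)
    cases r with
    | zero => simp at hr
    | succ r =>
      have h3 := ih r u rfl (by simpa using hr)
      exact (B_succ_le' hlt.1 hlt.2 h2 r).trans (by omega)

theorem B_edge' (hw : WLt w n) {u v c : ℕ} (h : w u v = some c) : c ≤ B_S w n := by
  have hlt := hw u v (by rw [h]; simp)
  have h1 := B_le_sum (List.range n) (fun v => (w u v).getD 0) (List.mem_range.2 hlt.2)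
  have h2 := B_le_sum (List.range n) (fun u => ((List.range n).map
    (fun v => (w u v).getD 0)).sum) (List.mem_range.2 hlt.1)
  simp only [h, Option.getD_some] at h1
  exact h1.trans h2

theorem B_cap' (hw : WLt w n) {L : List ℕ} {d : ℕ} (h : B_L w s L d) :
    d ≤ L.length * B_S w n := by
  induction h with
  | nil => simp
  | @cons u v c d L h1 h2 ih =>
    have := B_edge' hw h2
    rw [List.length_cons, Nat.add_mul]
    omega

theorem bfd_le' (hw : WLt w n) (hs : s < n) {v d : ℕ} (h : Wk w s v d) : bfd w n s v ≤ d := by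
  obtain ⟨L, d', h1, h2, h3⟩ := B_short h
  have h4 := B_length' hw hs h1 h2
  exact (B_complete' hw hs h1 n v rfl (by omega)).trans h3

theorem bfd_wk' (hw : WLt w n) (hs : s < n) {v d : ℕ} (h : Wk w s v d) :
    Wk w s v (bfd w n s v) := by
  obtain ⟨L, d', h1, h2, h3⟩ := B_short h
  have h4 := B_length' hw hs h1 h2
  have h5 := B_complete' hw hs h1 n v rfl (by omega)
  have h6 := B_cap' hw h1
  have h7 : (v :: L).length * B_S w n ≤ n * B_S w n := Nat.mul_le_mul_right _ h4
  refine B_wk (r := n) (B_lt' hw hs h1 v List.mem_cons_self) ?_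
  rw [B_capB]
  omega

theorem bfd_lip' (hw : WLt w n) (hs : s < n) {u v c : ℕ} (h : w u v = some c) :
    bfd w n s v ≤ bfd w n s u + c := by
  have hlt := hw u v (by rw [h]; simp)
  by_cases hu : bfd w n s u < capB w n
  · exact bfd_le' hw hs (B_snoc (B_wk (r := n) hlt.1 hu) h)
  · have : bfd w n s v ≤ capB w n := B_le_cap' n v
    omega

/-- the reversed graph -/
def rv (w : ℕ → ℕ → Option ℕ) : ℕ → ℕ → Option ℕ := fun u v => w v u

theorem rv_lt (hw : WLt w n) : WLt (rv w) n := fun u v h => (hw v u h).symm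

theorem wk_rv {u v d : ℕ} (h : Wk w u v d) : Wk (rv w) v u d := by
  induction h with
  | nil u => exact Wk.nil u
  | @cons u v x c d h1 _ ih =>
    rw [Nat.add_comm]
    exact B_snoc ih h1

theorem wk_rv' {u v d : ℕ} (h : Wk (rv w) u v d) : Wk w v u d := wk_rv h

theorem wk_append {u v x d e : ℕ} (h : Wk w u v d) (h' : Wk w v x e) : Wk w u x (d + e) := by
  induction h with
  | nil u => rw [Nat.zero_add]; exact h'
  | cons h1 _ ih => rw [Nat.add_assoc]; exact Wk.cons h1 (ih h')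

theorem bfd_rv {t : ℕ} (hw : WLt w n) (hs : s < n) (ht : t < n) {d : ℕ} (h : Wk w s t d) :
    bfd (rv w) n t s = bfd w n s t :=
  le_antisymm (bfd_le' (rv_lt hw) ht (wk_rv (bfd_wk' hw hs h)))
    (bfd_le' hw hs (wk_rv' (bfd_wk' (rv_lt hw) ht (wk_rv h))))

theorem bfd_self (hw : WLt w n) (hs : s < n) : bfd w n s s = 0 :=
  Nat.le_zero.1 (bfd_le' hw hs (Wk.nil s))

theorem tri {t u : ℕ} (hw : WLt w n) (hs : s < n) (ht : t < n) (hu : u < n) {d : ℕ}
    (h : Wk w s t d) : bfd w n s t ≤ bfd w n s u + bfd (rv w) n t u := by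
  by_cases h1 : bfd w n s u < capB w n
  · by_cases h2 : bfd (rv w) n t u < capB (rv w) n
    · exact bfd_le' hw hs (wk_append (B_wk (r := n) hu h1) (wk_rv' (B_wk (r := n) hu h2)))
    · have h3 : bfd (rv w) n t s ≤ capB (rv w) n := B_le_cap' n s
      rw [bfd_rv hw hs ht h] at h3
      omega
  · have : bfd w n s t ≤ capB w n := B_le_cap' n t
    omega

end bf

/-! ### Arcs and edges together -/

/-- the smaller one of two lengths -/
def om (a b : Option ℕ) : Option ℕ := a.elim b (fun x => some (b.elim x (fun y => min x y)))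

theorem om_left {a b : Option ℕ} {c : ℕ} (h : a = some c) : ∃ c', c' ≤ c ∧ om a b = some c' := by
  subst h
  cases b with
  | none => exact ⟨c, le_rfl, rfl⟩
  | some y => exact ⟨min c y, min_le_left _ _, rfl⟩

theorem om_right {a b : Option ℕ} {c : ℕ} (h : b = some c) : ∃ c', c' ≤ c ∧ om a b = some c' := by
  subst h
  cases a with
  | none => exact ⟨c, le_rfl, rfl⟩
  | some x => exact ⟨min x c, min_le_right _ _, rfl⟩

theorem om_some {a b : Option ℕ} {c : ℕ} (h : om a b = some c) : a = some c ∨ b = some c := by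
  cases a with
  | none => exact Or.inr h
  | some x =>
    cases b with
    | none => exact Or.inl h
    | some y =>
      have h' : min x y = c := Option.some.inj h
      rcases min_choice x y with h1 | h1
      · left; rw [← h', h1]
      · right; rw [← h', h1]

/-- arcs and edges together -/
def wM (wE wA : ℕ → ℕ → Option ℕ) (u v : ℕ) : Option ℕ := om (wE u v) (wA u v)

/-- potentials for the walks to `t` -/
structure Pot (wE wA : ℕ → ℕ → Option ℕ) (al ga : ℕ → ℕ) (D t : ℕ) : Prop where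
  E : ∀ u v c, wE u v = some c → al v ≤ al u + c ∧ ga u ≤ ga v + c ∧
    D ≤ al u + ga u ∧ D ≤ al v + ga v
  A : ∀ u v c, wA u v = some c → al v ≤ al u + c ∧ ga u ≤ ga v + c ∧
    D ≤ al u + ga u ∧ D ≤ al v + ga v
  al_t : al t = D
  ga_t : ga t = 0

/-- walks with arcs, and edges in the directions of `O` -/
inductive Nk (wE wA : ℕ → ℕ → Option ℕ) (O : ℕ → ℕ → Prop) : ℕ → ℕ → ℕ → Prop
  | nil (u : ℕ) : Nk wE wA O u u 0
  | arc {u v x c d : ℕ} : wA u v = some c → Nk wE wA O v x d → Nk wE wA O u x (c + d)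
  | edge {u v x c d : ℕ} : wE u v = some c → O u v → Nk wE wA O v x d → Nk wE wA O u x (c + d)

section pot

variable {wE wA : ℕ → ℕ → Option ℕ} {al ga : ℕ → ℕ} {D t : ℕ} {O : ℕ → ℕ → Prop}

theorem Nk.ga_le (hp : Pot wE wA al ga D t) {x y k : ℕ} (h : Nk wE wA O x y k) :
    ga x ≤ ga y + k := by
  induction h with
  | nil u => exact le_rfl
  | @arc u v x c d h1 _ ih => have := (hp.A u v c h1).2.1; omega
  | @edge u v x c d h1 _ _ ih => have := (hp.E u v c h1).2.1; omega

theorem Nk.tight (hp : Pot wE wA al ga D t) {x y k : ℕ} (h : Nk wE wA O x y k) :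
    y = t → al x + k ≤ D →
      ReflTransGen (St (Cfg.tt wA al ga D) (Cfg.tt wE al ga D) O) x y := by
  induction h with
  | nil u => intro _ _; exact ReflTransGen.refl
  | @arc u v x c d h1 h2 ih =>
    intro hx hk
    have h3 := hp.A u v c h1
    have h4 := h2.ga_le hp
    rw [hx, hp.ga_t] at h4
    exact ReflTransGen.head (Or.inl ⟨c, h1, by omega⟩) (ih hx (by omega))
  | @edge u v x c d h1 hO h2 ih =>
    intro hx hk
    have h3 := hp.E u v c h1
    have h4 := h2.ga_le hp
    rw [hx, hp.ga_t] at h4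
    exact ReflTransGen.head (Or.inr ⟨⟨c, h1, by omega⟩, hO⟩) (ih hx (by omega))

theorem nk_of_tight (hp : Pot wE wA al ga D t) {x : ℕ}
    (h : ReflTransGen (St (Cfg.tt wA al ga D) (Cfg.tt wE al ga D) O) x t) :
    ∃ k, Nk wE wA O x t k ∧ al x + k = D := by
  induction h using ReflTransGen.head_induction_on with
  | refl => exact ⟨0, Nk.nil t, hp.al_t⟩
  | @head y z h1 _ ih =>
    obtain ⟨k, hk, hk'⟩ := ih
    rcases h1 with ⟨c, hc, h1⟩ | ⟨⟨c, hc, h1⟩, hO⟩
    · have h3 := hp.A y z c hc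
      exact ⟨c + k, Nk.arc hc hk, by omega⟩
    · have h3 := hp.E y z c hc
      exact ⟨c + k, Nk.edge hc hO hk, by omega⟩

theorem Nk.wk {x y k : ℕ} (h : Nk wE wA O x y k) : ∃ k', k' ≤ k ∧ Wk (wM wE wA) x y k' := by
  induction h with
  | nil u => exact ⟨0, le_rfl, Wk.nil u⟩
  | @arc u v x c d h1 _ ih =>
    obtain ⟨k', h3, h4⟩ := ih
    obtain ⟨c', h5, h6⟩ := om_right (a := wE u v) h1
    exact ⟨c' + k', by omega, Wk.cons h6 h4⟩
  | @edge u v x c d h1 _ _ ih =>
    obtain ⟨k', h3, h4⟩ := ih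
    obtain ⟨c', h5, h6⟩ := om_left (b := wA u v) h1
    exact ⟨c' + k', by omega, Wk.cons h6 h4⟩

theorem wk_nk {x y k : ℕ} (h : Wk (wM wE wA) x y k) : Nk wE wA (fun _ _ => True) x y k := by
  induction h with
  | nil u => exact Nk.nil u
  | cons h1 _ ih =>
    rcases om_some h1 with h | h
    · exact Nk.edge h trivial ih
    · exact Nk.arc h ih

theorem Nk.mono {O' : ℕ → ℕ → Prop} {x y k : ℕ} (h : Nk wE wA O x y k)
    (hO : ∀ u v c, wE u v = some c → O u v → O' u v) : Nk wE wA O' x y k := by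
  induction h with
  | nil u => exact Nk.nil u
  | arc h1 _ ih => exact Nk.arc h1 ih
  | edge h1 h2 _ ih => exact Nk.edge h1 (hO _ _ _ h1 h2) ih

end pot

section cfg

variable {wE wA : ℕ → ℕ → Option ℕ} {n s t : ℕ}

theorem pot_ok (hw : WLt (wM wE wA) n) (hs : s < n) (ht : t < n) {d : ℕ}
    (h : Wk (wM wE wA) s t d) :
    Pot wE wA (bfd (wM wE wA) n s) (bfd (rv (wM wE wA)) n t) (bfd (wM wE wA) n s t) t := by
  have key : ∀ u v c c', c' ≤ c → wM wE wA u v = some c' →
      bfd (wM wE wA) n s v ≤ bfd (wM wE wA) n s u + c ∧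
      bfd (rv (wM wE wA)) n t u ≤ bfd (rv (wM wE wA)) n t v + c ∧
      bfd (wM wE wA) n s t ≤ bfd (wM wE wA) n s u + bfd (rv (wM wE wA)) n t u ∧
      bfd (wM wE wA) n s t ≤ bfd (wM wE wA) n s v + bfd (rv (wM wE wA)) n t v := by
    intro u v c c' hc h1
    have h2 := bfd_lip' hw hs h1
    have h3 := bfd_lip' (rv_lt hw) ht (show rv (wM wE wA) v u = some c' from h1)
    have h4 := hw u v (by rw [h1]; simp)
    exact ⟨by omega, by omega, tri hw hs ht h4.1 h, tri hw hs ht h4.2 h⟩
  refine ⟨fun u v c h1 => ?_, fun u v c h1 => ?_, rfl, bfd_self (rv_lt hw) ht⟩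
  · obtain ⟨c', h5, h6⟩ := om_left (b := wA u v) h1
    exact key u v c c' h5 h6
  · obtain ⟨c', h5, h6⟩ := om_right (a := wE u v) h1
    exact key u v c c' h5 h6

/-- the data of the game -/
def cfg (wE wA : ℕ → ℕ → Option ℕ) (n s t : ℕ) : Cfg ℕ where
  wE := wE
  wA := wA
  al := bfd (wM wE wA) n s
  be := bfd (rv (wM wE wA)) n s
  ga := bfd (rv (wM wE wA)) n t
  de := bfd (wM wE wA) n t
  t := t
  D := bfd (wM wE wA) n s t
  D' := bfd (wM wE wA) n t s

theorem cfg_ok (hw : WLt (wM wE wA) n) (hs : s < n) (ht : t < n) {d d' : ℕ}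
    (h : Wk (wM wE wA) s t d) (h' : Wk (wM wE wA) t s d') : (cfg wE wA n s t).Ok := by
  have p1 := pot_ok hw hs ht h
  have p2 := pot_ok hw ht hs h'
  refine ⟨⟨fun u v c hc => (p1.E u v c hc).1, fun u v c hc => (p2.E u v c hc).2.1,
    fun u v c hc => (p1.E u v c hc).2.1, fun u v c hc => (p2.E u v c hc).1,
    fun u v c hc => (p1.E u v c hc).2.2, fun u v c hc => (p2.E u v c hc).2.2⟩,
    ⟨fun u v c hc => (p1.A u v c hc).1, fun u v c hc => (p2.A u v c hc).2.1,
    fun u v c hc => (p1.A u v c hc).2.1, fun u v c hc => (p2.A u v c hc).1,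
    fun u v c hc => (p1.A u v c hc).2.2, fun u v c hc => (p2.A u v c hc).2.2⟩,
    p1.ga_t, rfl, bfd_self hw ht, ?_⟩
  exact bfd_rv hw ht hs h'

/-- compatible shortest walks -/
theorem comp_cfg_iff (hw : WLt (wM wE wA) n) (hs : s < n) (ht : t < n) {d d' : ℕ}
    (h : Wk (wM wE wA) s t d) (h' : Wk (wM wE wA) t s d') :
    (cfg wE wA n s t).Comp s s ↔ ∃ O, Anti O ∧ Nk wE wA O s t (bfd (wM wE wA) n s t) ∧
      Nk wE wA O t s (bfd (wM wE wA) n t s) := by
  have p1 := pot_ok hw hs ht h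
  have p2 := pot_ok hw ht hs h'
  have a1 := bfd_self hw hs
  have a2 := bfd_self hw ht
  constructor
  · rintro ⟨O, hO, h1, h2⟩
    obtain ⟨k, hk, hk'⟩ := nk_of_tight p1 (O := O) h1
    obtain ⟨l, hl, hl'⟩ := nk_of_tight p2 (x := t) (O := O) h2
    rw [a1, Nat.zero_add] at hk'
    rw [a2, Nat.zero_add] at hl'
    exact ⟨O, hO, hk' ▸ hk, hl' ▸ hl⟩
  · rintro ⟨O, hO, h1, h2⟩
    refine ⟨O, hO, h1.tight p1 rfl ?_, h2.tight p2 rfl ?_⟩
    · rw [a1, Nat.zero_add]
    · rw [a2, Nat.zero_add]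

/-- one shortest walk -/
theorem one_walk (hw : WLt (wM wE wA) n) (hs : s < n) (ht : t < n) {d : ℕ}
    (h : Wk (wM wE wA) s t d) :
    ∃ O, Anti O ∧ Nk wE wA O s t (bfd (wM wE wA) n s t) := by
  have p1 := pot_ok hw hs ht h
  have a1 := bfd_self hw hs
  have h1 := wk_nk (bfd_wk' hw hs h)
  have h2 := h1.tight p1 rfl (by rw [a1, Nat.zero_add])
  have h3 : ReflTransGen (fun u v => Cfg.tt wA (bfd (wM wE wA) n s)
      (bfd (rv (wM wE wA)) n t) (bfd (wM wE wA) n s t) u v ∨
      Cfg.tt wE (bfd (wM wE wA) n s) (bfd (rv (wM wE wA)) n t) (bfd (wM wE wA) n s t) u v) s t :=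
    rtg_mono (fun u v h => by
      rcases h with h | h
      · exact Or.inl h
      · exact Or.inr h.1) h2
  obtain ⟨O, hO, h4, _⟩ := two_paths (c := s) (d := s) h3 ReflTransGen.refl
  obtain ⟨k, hk, hk'⟩ := nk_of_tight p1 h4
  rw [a1, Nat.zero_add] at hk'
  exact ⟨O, hO, hk' ▸ hk⟩

end cfg

end Pool.Agent.Q189.MG
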