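import Pool.Agent.Q189.MG.Path

/-!
# The game with two pebbles

`al x = d(s,x)`, `be x = d(x,s)`, `ga x = d(x,t)`, `de x = d(t,x)` are given as potentials.
-/

set_option autoImplicit false

namespace Pool.Agent.Q189.MG

open Relation

/-- the data of the game -/
structure Cfg (V : Type) where
  wE : V → V → Option ℕ
  wA : V → V → Option ℕ
  al : V → ℕ
  be : V → ℕ
  ga : V → ℕ
  de : V → ℕ
  t : V
  D : ℕ
  D' : ℕ

namespace Cfg

variable {V : Type} (G : Cfg V)

/-- the level -/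
def f (x : V) : ℕ := G.al x + G.be x

/-- tight steps -/
def tt (w : V → V → Option ℕ) (g h : V → ℕ) (D : ℕ) (u v : V) : Prop :=
  ∃ c, w u v = some c ∧ g u + c + h v = D

/-- steps inside a level -/
def hh (w : V → V → Option ℕ) (u v : V) : Prop :=
  ∃ c, w u v = some c ∧ G.f u = G.f v ∧ G.al v = G.al u + c

def A1 : V → V → Prop := tt G.wA G.al G.ga G.D
def E1 : V → V → Prop := tt G.wE G.al G.ga G.D
def A2 : V → V → Prop := tt G.wA G.de G.be G.D'
def E2 : V → V → Prop := tt G.wE G.de G.be G.D'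
def AH : V → V → Prop := G.hh G.wA
def EH : V → V → Prop := G.hh G.wE

/-- the properties of the potentials -/
structure Lip (w : V → V → Option ℕ) : Prop where
  al : ∀ u v c, w u v = some c → G.al v ≤ G.al u + c
  be : ∀ u v c, w u v = some c → G.be u ≤ G.be v + c
  ga : ∀ u v c, w u v = some c → G.ga u ≤ G.ga v + c
  de : ∀ u v c, w u v = some c → G.de v ≤ G.de u + c
  D1 : ∀ u v c, w u v = some c → G.D ≤ G.al u + G.ga u ∧ G.D ≤ G.al v + G.ga v
  D2 : ∀ u v c, w u v = some c → G.D' ≤ G.de u + G.be u ∧ G.D' ≤ G.de v + G.be v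

structure Ok : Prop where
  lE : G.Lip G.wE
  lA : G.Lip G.wA
  ga_t : G.ga G.t = 0
  al_t : G.al G.t = G.D
  de_t : G.de G.t = 0
  be_t : G.be G.t = G.D'

variable {G}

theorem tt1 {w : V → V → Option ℕ} (h : G.Lip w) {u v : V} (huv : tt w G.al G.ga G.D u v) :
    G.f u ≤ G.f v ∧ G.al u + G.ga u = G.D ∧ G.al v + G.ga v = G.D ∧
      (G.f u = G.f v → G.hh w u v) := by
  obtain ⟨c, hc, h1⟩ := huv
  have a := h.al u v c hc
  have b := h.be u v c hc
  have d := h.ga u v c hc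
  have e := h.D1 u v c hc
  unfold f
  refine ⟨by omega, by omega, by omega, fun h2 => ⟨c, hc, h2, by omega⟩⟩

theorem tt2 {w : V → V → Option ℕ} (h : G.Lip w) {u v : V} (huv : tt w G.de G.be G.D' u v) :
    G.f v ≤ G.f u ∧ G.de u + G.be u = G.D' ∧ G.de v + G.be v = G.D' ∧
      (G.f u = G.f v → G.hh w u v) := by
  obtain ⟨c, hc, h1⟩ := huv
  have a := h.al u v c hc
  have b := h.be u v c hc
  have d := h.de u v c hc
  have e := h.D2 u v c hc
  unfold f
  refine ⟨by omega, by omega, by omega, fun h2 => ⟨c, hc, h2, by omega⟩⟩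

theorem hh1 {w : V → V → Option ℕ} (_h : G.Lip w) {u v : V} (huv : G.hh w u v)
    (hv : G.al v + G.ga v = G.D) : tt w G.al G.ga G.D u v := by
  obtain ⟨c, hc, h1, h2⟩ := huv
  exact ⟨c, hc, by omega⟩

theorem hh2 {w : V → V → Option ℕ} (h : G.Lip w) {u v : V} (huv : G.hh w u v)
    (hu : G.de u + G.be u = G.D') : tt w G.de G.be G.D' u v := by
  obtain ⟨c, hc, h1, h2⟩ := huv
  have b := h.be u v c hc
  unfold f at h1
  exact ⟨c, hc, by omega⟩

variable (G)

/-- steps of the first walk -/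
def S1 (O : V → V → Prop) : V → V → Prop := St G.A1 G.E1 O
/-- steps of the second walk -/
def S2 (O : V → V → Prop) : V → V → Prop := St G.A2 G.E2 O
/-- steps in the levels -/
def SH (O : V → V → Prop) : V → V → Prop := St G.AH G.EH O
/-- steps in the levels, without orientation -/
def H (u v : V) : Prop := G.AH u v ∨ G.EH u v

/-- compatible walks from `x` to `t` and from `t` to `y` -/
def Comp (x y : V) : Prop :=
  ∃ O, Anti O ∧ ReflTransGen (G.S1 O) x G.t ∧ ReflTransGen (G.S2 O) G.t y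

/-- compatible walks in a level -/
def K (x x1 y1 y : V) : Prop :=
  ∃ O, Anti O ∧ ReflTransGen (G.SH O) x x1 ∧ ReflTransGen (G.SH O) y1 y

/-- jumps of the first walk -/
def J1 (u v : V) : Prop := (G.A1 u v ∨ G.E1 u v) ∧ G.f u < G.f v
/-- jumps of the second walk -/
def J2 (u v : V) : Prop := (G.A2 u v ∨ G.E2 u v) ∧ G.f v < G.f u
/-- conflict of two jumps -/
def Cf (x1 x' y1 y' : V) : Prop := x1 = y1 ∧ x' = y' ∧ ¬ G.A1 x1 x' ∧ ¬ G.A2 y' y1

/-- moves of the two pebbles -/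
def Mv (p q : V × V) : Prop :=
  (G.f p.1 < G.f p.2 ∧ q.2 = p.2 ∧ ∃ x1, ReflTransGen G.H p.1 x1 ∧ G.J1 x1 q.1) ∨
  (G.f p.2 < G.f p.1 ∧ q.1 = p.1 ∧ ∃ y1, ReflTransGen G.H y1 p.2 ∧ G.J2 q.2 y1) ∨
  (G.f p.1 = G.f p.2 ∧ ∃ x1 y1, G.K p.1 x1 y1 p.2 ∧ G.J1 x1 q.1 ∧ G.J2 q.2 y1 ∧
    ¬ G.Cf x1 q.1 y1 q.2)

/-- final positions -/
def Fn (p : V × V) : Prop := G.f p.1 = G.f G.t ∧ G.f p.2 = G.f G.t ∧ G.K p.1 G.t G.t p.2

variable {G}

/-! ### General facts on walks -/

theorem s1_cases (hG : G.Ok) {O : V → V → Prop} {u v : V} (h : G.S1 O u v) :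
    G.f u ≤ G.f v ∧ G.al u + G.ga u = G.D ∧ G.al v + G.ga v = G.D ∧
      (G.f u = G.f v → G.SH O u v) := by
  rcases h with h | ⟨h, h'⟩
  · obtain ⟨h1, h2, h3, h4⟩ := tt1 hG.lA h
    exact ⟨h1, h2, h3, fun h5 => Or.inl (h4 h5)⟩
  · obtain ⟨h1, h2, h3, h4⟩ := tt1 hG.lE h
    exact ⟨h1, h2, h3, fun h5 => Or.inr ⟨h4 h5, h'⟩⟩

theorem s2_cases (hG : G.Ok) {O : V → V → Prop} {u v : V} (h : G.S2 O u v) :
    G.f v ≤ G.f u ∧ G.de u + G.be u = G.D' ∧ G.de v + G.be v = G.D' ∧
      (G.f u = G.f v → G.SH O u v) := by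
  rcases h with h | ⟨h, h'⟩
  · obtain ⟨h1, h2, h3, h4⟩ := tt2 hG.lA h
    exact ⟨h1, h2, h3, fun h5 => Or.inl (h4 h5)⟩
  · obtain ⟨h1, h2, h3, h4⟩ := tt2 hG.lE h
    exact ⟨h1, h2, h3, fun h5 => Or.inr ⟨h4 h5, h'⟩⟩

theorem sh_level {O : V → V → Prop} {u v : V} (h : G.SH O u v) : G.f u = G.f v := by
  rcases h with ⟨c, _, h, _⟩ | ⟨⟨c, _, h, _⟩, _⟩ <;> exact h

theorem rsh_level {O : V → V → Prop} {u v : V} (h : ReflTransGen (G.SH O) u v) :
    G.f u = G.f v := by
  induction h with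
  | refl => rfl
  | tail _ h' ih => exact ih.trans (sh_level h')

theorem rh_level {u v : V} (h : ReflTransGen G.H u v) : G.f u = G.f v := by
  induction h with
  | refl => rfl
  | tail _ h' ih => rcases h' with ⟨c, _, h, _⟩ | ⟨c, _, h, _⟩ <;> exact ih.trans h

theorem rs1_le (hG : G.Ok) {O : V → V → Prop} {u v : V} (h : ReflTransGen (G.S1 O) u v) :
    G.f u ≤ G.f v := by
  induction h with
  | refl => exact le_rfl
  | tail _ h' ih => exact ih.trans (s1_cases hG h').1

theorem rs2_le (hG : G.Ok) {O : V → V → Prop} {u v : V} (h : ReflTransGen (G.S2 O) u v) :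
    G.f v ≤ G.f u := by
  induction h with
  | refl => exact le_rfl
  | tail _ h' ih => exact (s2_cases hG h').1.trans ih

theorem sh_h {O : V → V → Prop} {u v : V} (h : ReflTransGen (G.SH O) u v) :
    ReflTransGen G.H u v :=
  rtg_mono (fun _ _ h => by
    rcases h with h | h
    · exact Or.inl h
    · exact Or.inr h.1) h

/-- a walk in a level uses every edge in at most one direction, if we want -/
theorem h_sh {u v : V} (h : ReflTransGen G.H u v) :
    ∃ O, Anti O ∧ ReflTransGen (G.SH O) u v := by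
  obtain ⟨O, h1, h2, _⟩ := two_paths (c := u) (d := u) h ReflTransGen.refl
  exact ⟨O, h1, h2⟩

theorem restrict1 (hG : G.Ok) {O O' : V → V → Prop} {c : ℕ} {u v : V} (hu : c < G.f u)
    (h : ReflTransGen (G.S1 O') u v)
    (hO : ∀ x y, c < G.f x → c < G.f y → O' x y → O x y) : ReflTransGen (G.S1 O) u v := by
  induction h with
  | refl => exact ReflTransGen.refl
  | @tail y z h1 h2 ih =>
    refine ih.tail ?_
    have h3 := rs1_le hG h1
    have h4 := (s1_cases hG h2).1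
    rcases h2 with h | ⟨h, h'⟩
    · exact Or.inl h
    · exact Or.inr ⟨h, hO y z (by omega) (by omega) h'⟩

theorem restrict2 (hG : G.Ok) {O O' : V → V → Prop} {c : ℕ} {u v : V} (hv : c < G.f v)
    (h : ReflTransGen (G.S2 O') u v)
    (hO : ∀ x y, c < G.f x → c < G.f y → O' x y → O x y) : ReflTransGen (G.S2 O) u v := by
  induction h using ReflTransGen.head_induction_on with
  | refl => exact ReflTransGen.refl
  | @head y z h2 h1 ih =>
    refine ReflTransGen.head ?_ ih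
    have h3 := rs2_le hG h1
    have h4 := (s2_cases hG h2).1
    rcases h2 with h | ⟨h, h'⟩
    · exact Or.inl h
    · exact Or.inr ⟨h, hO y z (by omega) (by omega) h'⟩

theorem restrictH {O O' : V → V → Prop} {c : ℕ} {u v : V} (hu : G.f u = c)
    (h : ReflTransGen (G.SH O') u v)
    (hO : ∀ x y, G.f x = c → G.f y = c → O' x y → O x y) : ReflTransGen (G.SH O) u v := by
  induction h with
  | refl => exact ReflTransGen.refl
  | @tail y z h1 h2 ih =>
    refine ih.tail ?_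
    have h3 := rsh_level h1
    have h4 := sh_level h2
    rcases h2 with h | ⟨h, h'⟩
    · exact Or.inl h
    · exact Or.inr ⟨h, hO y z (by omega) (by omega) h'⟩

theorem lift1 (hG : G.Ok) {O : V → V → Prop} {x x1 : V} (h : ReflTransGen (G.SH O) x x1)
    (h1 : G.al x1 + G.ga x1 = G.D) :
    ReflTransGen (G.S1 O) x x1 ∧ G.al x + G.ga x = G.D := by
  induction h using ReflTransGen.head_induction_on with
  | refl => exact ⟨ReflTransGen.refl, h1⟩
  | @head y z h2 _ ih =>
    have h3 : G.S1 O y z := by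
      rcases h2 with h | ⟨h, h'⟩
      · exact Or.inl (hh1 hG.lA h ih.2)
      · exact Or.inr ⟨hh1 hG.lE h ih.2, h'⟩
    exact ⟨ReflTransGen.head h3 ih.1, (s1_cases hG h3).2.1⟩

theorem lift2 (hG : G.Ok) {O : V → V → Prop} {y1 y : V} (h : ReflTransGen (G.SH O) y1 y)
    (h1 : G.de y1 + G.be y1 = G.D') :
    ReflTransGen (G.S2 O) y1 y ∧ G.de y + G.be y = G.D' := by
  induction h with
  | refl => exact ⟨ReflTransGen.refl, h1⟩
  | @tail y z _ h2 ih =>
    have h3 : G.S2 O y z := by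
      rcases h2 with h | ⟨h, h'⟩
      · exact Or.inl (hh2 hG.lA h ih.2)
      · exact Or.inr ⟨hh2 hG.lE h ih.2, h'⟩
    exact ⟨ih.1.tail h3, (s2_cases hG h3).2.2.1⟩

/-! ### Decomposition of the walks -/

theorem dec1 (hG : G.Ok) {O : V → V → Prop} {x : V} (h : ReflTransGen (G.S1 O) x G.t) :
    ∃ x1, ReflTransGen (G.SH O) x x1 ∧ (x1 = G.t ∨
      ∃ x', G.S1 O x1 x' ∧ G.f x1 < G.f x' ∧ ReflTransGen (G.S1 O) x' G.t) := by
  induction h using ReflTransGen.head_induction_on with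
  | refl => exact ⟨G.t, ReflTransGen.refl, Or.inl rfl⟩
  | @head y z h2 h1 ih =>
    obtain ⟨h3, _, _, h4⟩ := s1_cases hG h2
    rcases h3.lt_or_eq with h5 | h5
    · exact ⟨y, ReflTransGen.refl, Or.inr ⟨z, h2, h5, h1⟩⟩
    · obtain ⟨x1, h6, h7⟩ := ih
      exact ⟨x1, ReflTransGen.head (h4 h5) h6, h7⟩

theorem dec2 (hG : G.Ok) {O : V → V → Prop} {y : V} (h : ReflTransGen (G.S2 O) G.t y) :
    ∃ y1, ReflTransGen (G.SH O) y1 y ∧ (y1 = G.t ∨
      ∃ y', G.S2 O y' y1 ∧ G.f y1 < G.f y' ∧ ReflTransGen (G.S2 O) G.t y') := by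
  induction h with
  | refl => exact ⟨G.t, ReflTransGen.refl, Or.inl rfl⟩
  | @tail y z h1 h2 ih =>
    obtain ⟨h3, _, _, h4⟩ := s2_cases hG h2
    rcases h3.lt_or_eq with h5 | h5
    · exact ⟨z, ReflTransGen.refl, Or.inr ⟨y, h2, h5, h1⟩⟩
    · obtain ⟨x1, h6, h7⟩ := ih
      exact ⟨x1, h6.tail (h4 h5.symm), h7⟩

theorem s1_j1 {O : V → V → Prop} {u v : V} (h : G.S1 O u v) (hf : G.f u < G.f v) : G.J1 u v := by
  rcases h with h | h
  · exact ⟨Or.inl h, hf⟩
  · exact ⟨Or.inr h.1, hf⟩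

theorem s2_j2 {O : V → V → Prop} {u v : V} (h : G.S2 O u v) (hf : G.f v < G.f u) : G.J2 u v := by
  rcases h with h | h
  · exact ⟨Or.inl h, hf⟩
  · exact ⟨Or.inr h.1, hf⟩

/-! ### The game is won if there are compatible walks -/

theorem win_of_comp (hG : G.Ok) : ∀ (n : ℕ) (x y : V),
    (G.f G.t - G.f x) + (G.f G.t - G.f y) ≤ n → G.Comp x y →
      ∃ z, ReflTransGen G.Mv (x, y) z ∧ G.Fn z := by
  intro n
  induction n with
  | zero =>
    intro x y hn h
    obtain ⟨O, hO, h1, h2⟩ := h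
    obtain ⟨x1, h3, h4⟩ := dec1 hG h1
    obtain ⟨y1, h5, h6⟩ := dec2 hG h2
    have a1 := rs1_le hG h1
    have a2 := rs2_le hG h2
    have a3 := rsh_level h3
    have a5 := rsh_level h5
    have hx : x1 = G.t := by
      rcases h4 with h | ⟨x', h7, h8, h9⟩
      · exact h
      · have := rs1_le hG h9
        omega
    have hy : y1 = G.t := by
      rcases h6 with h | ⟨x', h7, h8, h9⟩
      · exact h
      · have := rs2_le hG h9
        omega
    subst hx
    refine ⟨(x, y), ReflTransGen.refl, a3, ?_, O, hO, h3, ?_⟩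
    · show G.f y = _
      rw [← a5, hy]
    · rw [← hy]; exact h5
  | succ n ih =>
    intro x y hn h
    obtain ⟨O, hO, h1, h2⟩ := h
    obtain ⟨x1, h3, h4⟩ := dec1 hG h1
    obtain ⟨y1, h5, h6⟩ := dec2 hG h2
    have a1 := rs1_le hG h1
    have a2 := rs2_le hG h2
    have a3 := rsh_level h3
    have a5 := rsh_level h5
    rcases lt_trichotomy (G.f x) (G.f y) with hxy | hxy | hxy
    · -- the first pebble moves
      rcases h4 with h | ⟨x', h7, h8, h9⟩
      · rw [h] at a3; omega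
      · have a9 := rs1_le hG h9
        obtain ⟨z, hz1, hz2⟩ := ih x' y (by omega) ⟨O, hO, h9, h2⟩
        refine ⟨z, ReflTransGen.head ?_ hz1, hz2⟩
        exact Or.inl ⟨hxy, rfl, x1, sh_h h3, s1_j1 h7 h8⟩
    · rcases h4 with h | ⟨x', h7, h8, h9⟩
      · have hy : y1 = G.t := by
          rcases h6 with h' | ⟨y', h7, h8, h9⟩
          · exact h'
          · have := rs2_le hG h9
            rw [h] at a3
            omega
        subst h
        refine ⟨(x, y), ReflTransGen.refl, a3, ?_, O, hO, h3, ?_⟩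
        · show G.f y = _
          rw [← a5, hy]
        · rw [← hy]; exact h5
      · have a9 := rs1_le hG h9
        rcases h6 with h | ⟨y', k7, k8, k9⟩
        · rw [h] at a5; omega
        · have b9 := rs2_le hG k9
          obtain ⟨z, hz1, hz2⟩ := ih x' y' (by omega) ⟨O, hO, h9, k9⟩
          refine ⟨z, ReflTransGen.head ?_ hz1, hz2⟩
          refine Or.inr (Or.inr ⟨hxy, x1, y1, ⟨O, hO, h3, h5⟩, s1_j1 h7 h8, s2_j2 k7 k8, ?_⟩)
          rintro ⟨e1, e2, e3, e4⟩
          rcases h7 with h7 | h7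
          · exact e3 h7
          · rcases k7 with k7 | k7
            · exact e4 k7
            · have e1' : x1 = y1 := e1
              have e2' : x' = y' := e2
              subst e1' e2'
              exact hO _ _ h7.2 k7.2
    · rcases h6 with h | ⟨y', k7, k8, k9⟩
      · rw [h] at a5; omega
      · have b9 := rs2_le hG k9
        obtain ⟨z, hz1, hz2⟩ := ih x y' (by omega) ⟨O, hO, h1, k9⟩
        refine ⟨z, ReflTransGen.head ?_ hz1, hz2⟩
        exact Or.inr (Or.inl ⟨hxy, rfl, y1, sh_h h5, s2_j2 k7 k8⟩)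

/-! ### There are compatible walks if the game is won -/

theorem comp_of_win (hG : G.Ok) {p z : V × V} (h : ReflTransGen G.Mv p z) (hz : G.Fn z) :
    G.Comp p.1 p.2 := by
  induction h using ReflTransGen.head_induction_on with
  | refl =>
    obtain ⟨h1, h2, O, hO, h3, h4⟩ := hz
    refine ⟨O, hO, (lift1 hG h3 ?_).1, (lift2 hG h4 ?_).1⟩
    · rw [hG.al_t, hG.ga_t, Nat.add_zero]
    · rw [hG.de_t, hG.be_t, Nat.zero_add]
  | @head p q hpq _ ih =>
    obtain ⟨O', hO', h1, h2⟩ := ih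
    obtain ⟨x, y⟩ := p
    obtain ⟨x', y'⟩ := q
    have b1 := rs1_le hG h1
    have b2 := rs2_le hG h2
    rcases hpq with ⟨h3, h4, x1, h5, h6, h7⟩ | ⟨h3, h4, y1, h5, h6, h7⟩ |
      ⟨h3, x1, y1, ⟨O0, hO0, h5, h5'⟩, ⟨h6, h7⟩, ⟨h8, h9⟩, h10⟩
    · -- the first pebble moved
      dsimp only at h3 h4 h5 h6 h7 h1 h2 b1 b2 ⊢
      subst h4
      obtain ⟨O0, hO0, h5⟩ := h_sh h5
      have a5 := rsh_level h5
      refine ⟨fun u v => (G.f x < G.f u ∧ G.f x < G.f v ∧ O' u v) ∨
        (G.f u = G.f x ∧ G.f v = G.f x ∧ O0 u v) ∨ (u = x1 ∧ v = x'), ?_, ?_, ?_⟩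
      · rintro u v (⟨c1, c2, c3⟩ | ⟨c1, c2, c3⟩ | ⟨c1, c2⟩) (⟨d1, d2, d3⟩ | ⟨d1, d2, d3⟩ | ⟨d1, d2⟩)
        · exact hO' _ _ c3 d3
        · omega
        · subst d1 d2; omega
        · omega
        · exact hO0 _ _ c3 d3
        · subst d1 d2; omega
        · subst c1 c2; omega
        · subst c1 c2; omega
        · subst c1 c2; rw [← d1] at h7; omega
      · have g1 : G.al x1 + G.ga x1 = G.D := by
          rcases h6 with h | h
          · exact (tt1 hG.lA h).2.1
          · exact (tt1 hG.lE h).2.1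
        refine (lift1 hG (restrictH rfl h5 fun u v c1 c2 c3 => Or.inr (Or.inl ⟨c1, c2, c3⟩)) g1).1.trans
          (ReflTransGen.head ?_ (restrict1 hG (by omega) h1 fun u v c1 c2 c3 =>
            Or.inl ⟨c1, c2, c3⟩))
        rcases h6 with h | h
        · exact Or.inl h
        · exact Or.inr ⟨h, Or.inr (Or.inr ⟨rfl, rfl⟩)⟩
      · exact restrict2 hG (by omega) h2 fun u v c1 c2 c3 => Or.inl ⟨c1, c2, c3⟩
    · -- the second pebble moved
      dsimp only at h3 h4 h5 h6 h7 h1 h2 b1 b2 ⊢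
      subst h4
      obtain ⟨O0, hO0, h5⟩ := h_sh h5
      have a5 := rsh_level h5
      refine ⟨fun u v => (G.f y < G.f u ∧ G.f y < G.f v ∧ O' u v) ∨
        (G.f u = G.f y ∧ G.f v = G.f y ∧ O0 u v) ∨ (u = y' ∧ v = y1), ?_, ?_, ?_⟩
      · rintro u v (⟨c1, c2, c3⟩ | ⟨c1, c2, c3⟩ | ⟨c1, c2⟩) (⟨d1, d2, d3⟩ | ⟨d1, d2, d3⟩ | ⟨d1, d2⟩)
        · exact hO' _ _ c3 d3
        · omega
        · subst d1 d2; omega
        · omega
        · exact hO0 _ _ c3 d3
        · subst d1 d2; omega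
        · subst c1 c2; omega
        · subst c1 c2; omega
        · subst c1 c2; rw [← d1] at h7; omega
      · exact restrict1 hG (by omega) h1 fun u v c1 c2 c3 => Or.inl ⟨c1, c2, c3⟩
      · have g1 : G.de y1 + G.be y1 = G.D' := by
          rcases h6 with h | h
          · exact (tt2 hG.lA h).2.2.1
          · exact (tt2 hG.lE h).2.2.1
        refine ((restrict2 hG (by omega) h2 fun u v c1 c2 c3 =>
            Or.inl ⟨c1, c2, c3⟩).tail ?_).trans
          (lift2 hG (restrictH a5 h5 fun u v c1 c2 c3 => Or.inr (Or.inl ⟨c1, c2, c3⟩)) g1).1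
        rcases h6 with h | h
        · exact Or.inl h
        · exact Or.inr ⟨h, Or.inr (Or.inr ⟨rfl, rfl⟩)⟩
    · -- both pebbles moved
      dsimp only at h3 h5 h5' h6 h7 h8 h9 h10 h1 h2 b1 b2 ⊢
      have a5 := rsh_level h5
      have a5' := rsh_level h5'
      refine ⟨fun u v => (G.f x < G.f u ∧ G.f x < G.f v ∧ O' u v) ∨
        (G.f u = G.f x ∧ G.f v = G.f x ∧ O0 u v) ∨ (u = x1 ∧ v = x' ∧ ¬ G.A1 u v) ∨
        (u = y' ∧ v = y1 ∧ ¬ G.A2 u v), ?_, ?_, ?_⟩
      · rintro u v (⟨c1, c2, c3⟩ | ⟨c1, c2, c3⟩ | ⟨c1, c2, c3⟩ | ⟨c1, c2, c3⟩)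
          (⟨d1, d2, d3⟩ | ⟨d1, d2, d3⟩ | ⟨d1, d2, d3⟩ | ⟨d1, d2, d3⟩)
        · exact hO' _ _ c3 d3
        · omega
        · subst d1 d2; omega
        · subst d1 d2; omega
        · omega
        · exact hO0 _ _ c3 d3
        · subst d1 d2; omega
        · subst d1 d2; omega
        · subst c1 c2; omega
        · subst c1 c2; omega
        · subst c1 c2; rw [← d1] at h7; omega
        · subst c1 c2
          exact h10 ⟨d2, d1, c3, by rw [← d1, ← d2]; exact d3⟩
        · subst c1 c2; omega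
        · subst c1 c2; omega
        · subst c1 c2
          exact h10 ⟨d1.symm, d2.symm, by rw [← d1, ← d2]; exact d3, c3⟩
        · subst c1 c2; rw [← d1] at h9; omega
      · have g1 : G.al x1 + G.ga x1 = G.D := by
          rcases h6 with h | h
          · exact (tt1 hG.lA h).2.1
          · exact (tt1 hG.lE h).2.1
        refine (lift1 hG (restrictH rfl h5 fun u v c1 c2 c3 => Or.inr (Or.inl ⟨c1, c2, c3⟩)) g1).1.trans
          (ReflTransGen.head ?_ (restrict1 hG (by omega) h1 fun u v c1 c2 c3 =>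
            Or.inl ⟨c1, c2, c3⟩))
        by_cases hA : G.A1 x1 x'
        · exact Or.inl hA
        · rcases h6 with h | h
          · exact absurd h hA
          · exact Or.inr ⟨h, Or.inr (Or.inr (Or.inl ⟨rfl, rfl, hA⟩))⟩
      · have g1 : G.de y1 + G.be y1 = G.D' := by
          rcases h8 with h | h
          · exact (tt2 hG.lA h).2.2.1
          · exact (tt2 hG.lE h).2.2.1
        refine ((restrict2 hG (by omega) h2 fun u v c1 c2 c3 =>
            Or.inl ⟨c1, c2, c3⟩).tail ?_).trans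
          (lift2 hG (restrictH (by omega) h5' fun u v c1 c2 c3 =>
            Or.inr (Or.inl ⟨c1, c2, c3⟩)) g1).1
        by_cases hA : G.A2 y' y1
        · exact Or.inl hA
        · rcases h8 with h | h
          · exact absurd h hA
          · exact Or.inr ⟨h, Or.inr (Or.inr (Or.inr ⟨rfl, rfl, hA⟩))⟩

/-- **The game.** -/
theorem comp_iff (hG : G.Ok) (x y : V) :
    G.Comp x y ↔ ∃ z, ReflTransGen G.Mv (x, y) z ∧ G.Fn z :=
  ⟨fun h => win_of_comp hG _ x y le_rfl h, fun ⟨_, h1, h2⟩ => comp_of_win hG h1 h2⟩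

/-- the test for compatible walks in a level -/
theorem k_iff (x x1 y1 y : V) : G.K x x1 y1 y ↔ ReflTransGen G.H x x1 ∧
    ReflTransGen (fun u v => G.AH u v ∨ (G.EH u v ∧ ¬ Forced G.AH G.EH x x1 v u)) y1 y := by
  constructor
  · rintro ⟨O, hO, h1, h2⟩
    exact two_paths_conv hO h1 h2
  · rintro ⟨h1, h2⟩
    exact two_paths h1 h2

end Cfg

end Pool.Agent.Q189.MG
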