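import Mathlib

/-!
# Two compatible walks in a mixed graph

`A` is the set of the arcs, `E` the set of the edges (with the directions in which they may be used).
-/

set_option autoImplicit false

namespace Pool.Agent.Q189.MG

open Relation

/-- a simple path, as a function on an initial segment of the natural numbers -/
theorem exists_simple {V : Type} {R : V → V → Prop} {a b : V} (h : ReflTransGen R a b) :
    ∃ (m : ℕ) (p : ℕ → V), p 0 = a ∧ p m = b ∧ (∀ i < m, R (p i) (p (i + 1))) ∧
      ∀ i ≤ m, ∀ j ≤ m, p i = p j → i = j := by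
  classical
  have h1 : ∃ (m : ℕ), ∃ p : ℕ → V, p 0 = a ∧ p m = b ∧ ∀ i < m, R (p i) (p (i + 1)) := by
    induction h with
    | refl => exact ⟨0, fun _ => a, rfl, rfl, by simp⟩
    | @tail b c _ hbc ih =>
      obtain ⟨m, p, h0, hm, hp⟩ := ih
      refine ⟨m + 1, fun i => if i ≤ m then p i else c, by simp [h0], by simp, ?_⟩
      intro i hi
      by_cases him : i < m
      · have h2 : i ≤ m := him.le
        have h3 : i + 1 ≤ m := him
        simp only [h2, h3, if_true]
        exact hp i him
      · have : i = m := by omega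
        subst this
        simp [hm, hbc]
  obtain ⟨p, h0, hm, hp⟩ := Nat.find_spec h1
  refine ⟨Nat.find h1, p, h0, hm, hp, ?_⟩
  have key : ∀ i j, i < j → j ≤ Nat.find h1 → p i ≠ p j := by
    intro i j hij hj heq
    have hlt : Nat.find h1 - (j - i) < Nat.find h1 := by omega
    refine Nat.find_min h1 hlt
      ⟨fun k => if k ≤ i then p k else p (k + (j - i)), by simp [h0], ?_, ?_⟩
    · by_cases hc : Nat.find h1 - (j - i) ≤ i
      · have h4 : Nat.find h1 = j := by omega
        have h5 : Nat.find h1 - (j - i) = i := by omega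
        simp only [h5, le_refl, if_true]
        rw [heq, ← h4, hm]
      · simp only [hc, if_false]
        have h4 : Nat.find h1 - (j - i) + (j - i) = Nat.find h1 := by omega
        rw [h4, hm]
    · intro k hk
      by_cases hki : k + 1 ≤ i
      · have h4 : k ≤ i := by omega
        simp only [hki, h4, if_true]
        exact hp k (by omega)
      · by_cases hki' : k = i
        · subst hki'
          simp only [le_refl, if_true, hki, if_false]
          rw [heq]
          have h4 : k + 1 + (j - k) = j + 1 := by omega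
          rw [h4]
          exact hp j (by omega)
        · have h6 : ¬ k ≤ i := by omega
          simp only [h6, hki, if_false]
          have h4 : k + 1 + (j - i) = k + (j - i) + 1 := by omega
          rw [h4]
          exact hp _ (by omega)
  intro i hi j hj heq
  rcases lt_trichotomy i j with h | h | h
  · exact absurd heq (key i j h hj)
  · exact h
  · exact absurd heq.symm (key j i h hi)

theorem rtg_path {V : Type} {R : V → V → Prop} (p : ℕ → V) :
    ∀ m : ℕ, (∀ i < m, R (p i) (p (i + 1))) → ReflTransGen R (p 0) (p m)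
  | 0, _ => ReflTransGen.refl
  | m + 1, h => (rtg_path p m fun i hi => h i (by omega)).tail (h m (by omega))

theorem exists_exit {V : Type} {R : V → V → Prop} {S : V → Prop} {a b : V}
    (h : ReflTransGen R a b) (ha : S a) (hb : ¬ S b) : ∃ x y, S x ∧ ¬ S y ∧ R x y := by
  induction h with
  | refl => exact absurd ha hb
  | @tail b c _ hbc ih =>
    by_cases hS : S b
    · exact ⟨b, c, hS, hb, hbc⟩
    · exact ih hS

theorem rtg_mono {V : Type} {R R' : V → V → Prop} (h : ∀ u v, R u v → R' u v) {a b : V}
    (hab : ReflTransGen R a b) : ReflTransGen R' a b := by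
  induction hab with
  | refl => exact ReflTransGen.refl
  | tail _ h' ih => exact ih.tail (h _ _ h')

/-- the steps: arcs, and edges in the directions given by `O` -/
def St {V : Type} (A E O : V → V → Prop) (u v : V) : Prop := A u v ∨ (E u v ∧ O u v)

/-- no edge is used in both directions -/
def Anti {V : Type} (O : V → V → Prop) : Prop := ∀ u v, O u v → ¬ O v u

/-- every walk from `a` to `b` uses the edge `u v` in the direction from `u` to `v` -/
def Forced {V : Type} (A E : V → V → Prop) (a b u v : V) : Prop :=
  E u v ∧ ¬ ReflTransGen (fun x y => A x y ∨ (E x y ∧ ¬ (x = u ∧ y = v))) a b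

/-- **Two compatible walks.** There are walks from `a` to `b` and from `c` to `d` which do not use an
edge in opposite directions, if there is a walk from `a` to `b` and a walk from `c` to `d` that
does not use an edge against a direction forced by `a`, `b`. -/
theorem two_paths {V : Type} {A E : V → V → Prop} {a b c d : V}
    (h1 : ReflTransGen (fun u v => A u v ∨ E u v) a b)
    (h2 : ReflTransGen (fun u v => A u v ∨ (E u v ∧ ¬ Forced A E a b v u)) c d) :
    ∃ O, Anti O ∧ ReflTransGen (St A E O) a b ∧ ReflTransGen (St A E O) c d := by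
  obtain ⟨m, q, q0, qm, hq, qi⟩ := exists_simple h2
  obtain ⟨OQ, hOQ⟩ : ∃ OQ : V → V → Prop, ∀ u v, OQ u v ↔
      ∃ i < m, u = q i ∧ v = q (i + 1) ∧ ¬ A u v := ⟨fun u v => ∃ i < m, u = q i ∧ v = q (i + 1) ∧ ¬ A u v, fun _ _ => Iff.rfl⟩
  have hanti : ∀ u v, OQ u v → ¬ OQ v u := by
    intro u v huv hvu
    obtain ⟨i, hi, h3, h4, -⟩ := (hOQ u v).1 huv
    obtain ⟨j, hj, h5, h6, -⟩ := (hOQ v u).1 hvu
    have h7 := qi i (by omega) (j + 1) (by omega) (h3.symm.trans h6)
    have h8 := qi (i + 1) (by omega) j (by omega) (h4.symm.trans h5)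
    omega
  have hcl : ∀ i < m, ¬ OQ (q (i + 1)) (q i) := by
    intro i hi h
    obtain ⟨j, hj, h5, h6, -⟩ := (hOQ _ _).1 h
    have h7 := qi (i + 1) (by omega) j (by omega) h5
    have h8 := qi i (by omega) (j + 1) (by omega) h6
    omega
  by_cases hR : ReflTransGen (fun u v => A u v ∨ (E u v ∧ ¬ OQ v u)) a b
  · obtain ⟨k, p, p0, pk, hp, pi⟩ := exists_simple hR
    refine ⟨fun u v => OQ u v ∨ ((∃ i < k, u = p i ∧ v = p (i + 1)) ∧ ¬ OQ v u), ?_, ?_, ?_⟩
    · rintro u v (huv | ⟨⟨i, hi, h3, h4⟩, h5⟩) (hvu | ⟨⟨j, hj, h6, h7⟩, h8⟩)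
      · exact hanti u v huv hvu
      · exact h8 huv
      · exact h5 hvu
      · have h9 := pi i (by omega) (j + 1) (by omega) (h3.symm.trans h7)
        have h10 := pi (i + 1) (by omega) j (by omega) (h4.symm.trans h6)
        omega
    · rw [← p0, ← pk]
      refine rtg_path p k fun i hi => ?_
      rcases hp i hi with h | ⟨h, h'⟩
      · exact Or.inl h
      · exact Or.inr ⟨h, Or.inr ⟨⟨i, hi, rfl, rfl⟩, h'⟩⟩
    · rw [← q0, ← qm]
      refine rtg_path q m fun i hi => ?_
      by_cases hA : A (q i) (q (i + 1))
      · exact Or.inl hA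
      · rcases hq i hi with h | ⟨h, _⟩
        · exact absurd h hA
        · exact Or.inr ⟨h, Or.inl ((hOQ _ _).2 ⟨i, hi, rfl, rfl, hA⟩)⟩
  · exfalso
    set S : V → Prop := fun x => ReflTransGen (fun u v => A u v ∨ (E u v ∧ ¬ OQ v u)) a x with hS
    have hSa : S a := ReflTransGen.refl
    have hSb : ¬ S b := hR
    have hstep : ∀ x y, S x → (A x y ∨ (E x y ∧ ¬ OQ y x)) → S y := fun x y hx h => hx.tail h
    have hqS : ∀ i < m, S (q i) → S (q (i + 1)) := by
      intro i hi h
      refine hstep _ _ h ?_
      rcases hq i hi with h' | ⟨h', _⟩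
      · exact Or.inl h'
      · exact Or.inr ⟨h', hcl i hi⟩
    have hqS' : ∀ i j, i ≤ j → j ≤ m → S (q i) → S (q j) := by
      intro i j hij
      induction hij with
      | refl => intro _ h; exact h
      | @step j _ ih => intro hj h; exact hqS j (by omega) (ih (by omega) h)
    obtain ⟨x, y, hx, hy, hxy⟩ := exists_exit h1 hSa hSb
    have hE : E x y ∧ OQ y x := by
      rcases hxy with h | h
      · exact absurd (hstep _ _ hx (Or.inl h)) hy
      · by_contra hc
        have : ¬ OQ y x := fun h' => hc ⟨h, h'⟩
        exact hy (hstep _ _ hx (Or.inr ⟨h, this⟩))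
    obtain ⟨i, hi, hyi, hxi, hnA⟩ := (hOQ y x).1 hE.2
    have hnF : ¬ Forced A E a b x y := by
      rcases hq i hi with h | ⟨_, h⟩
      · rw [← hyi, ← hxi] at h
        exact absurd h hnA
      · rw [← hyi, ← hxi] at h
        exact h
    apply hnF
    refine ⟨hE.1, fun hw => ?_⟩
    obtain ⟨x', y', hx', hy', hxy'⟩ := exists_exit hw hSa hSb
    rcases hxy' with h | ⟨h, hne⟩
    · exact hy' (hstep _ _ hx' (Or.inl h))
    · by_cases hO : OQ y' x'
      · obtain ⟨j, hj, hyj, hxj, _⟩ := (hOQ y' x').1 hO
        apply hne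
        have hij : i = j := by
          rcases lt_trichotomy i j with hlt | heq | hlt
          · exfalso
            apply hy'
            rw [hyj]
            refine hqS' (i + 1) j (by omega) (by omega) ?_
            rw [← hxi]
            exact hx
          · exact heq
          · exfalso
            apply hy
            rw [hyi]
            refine hqS' (j + 1) i (by omega) (by omega) ?_
            rw [← hxj]
            exact hx'
        subst hij
        exact ⟨hxj.trans hxi.symm, hyj.trans hyi.symm⟩
      · exact hy' (hstep _ _ hx' (Or.inr ⟨h, hO⟩))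

/-- the converse of `two_paths` -/
theorem two_paths_conv {V : Type} {A E O : V → V → Prop} {a b c d : V} (hO : Anti O)
    (h1 : ReflTransGen (St A E O) a b) (h2 : ReflTransGen (St A E O) c d) :
    ReflTransGen (fun u v => A u v ∨ E u v) a b ∧
    ReflTransGen (fun u v => A u v ∨ (E u v ∧ ¬ Forced A E a b v u)) c d := by
  constructor
  · refine rtg_mono (fun u v h => ?_) h1
    rcases h with h | h
    · exact Or.inl h
    · exact Or.inr h.1
  · refine rtg_mono (fun u v h => ?_) h2
    rcases h with h | ⟨h, h'⟩
    · exact Or.inl h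
    · refine Or.inr ⟨h, fun hF => hF.2 ?_⟩
      refine rtg_mono (fun x y hxy => ?_) h1
      rcases hxy with h3 | ⟨h3, h4⟩
      · exact Or.inl h3
      · refine Or.inr ⟨h3, ?_⟩
        rintro ⟨rfl, rfl⟩
        exact hO _ _ h' h4

end Pool.Agent.Q189.MG
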