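import Pool.Agent.Q189.MG.Algo

/-!
# Correctness of the game as an algorithm
-/

set_option autoImplicit false

namespace Pool.Agent.Q189.MG

open Relation Pool.Agent.H614R2.DPO

theorem elim_false_iff {β : Type} {o : Option β} {p : β → Bool} :
    o.elim false p = true ↔ ∃ c, o = some c ∧ p c = true := by
  cases o with
  | none => simp
  | some c => simp

theorem ttB_iff {w : ℕ → ℕ → Option ℕ} {g h : ℕ → ℕ} {D u v : ℕ} :
    ttB w g h D u v = true ↔ Cfg.tt w g h D u v := by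
  unfold ttB Cfg.tt
  rw [elim_false_iff]
  simp only [decide_eq_true_eq]

section

variable (G : Cfg ℕ) (n : ℕ)

theorem hhB_iff {w : ℕ → ℕ → Option ℕ} {u v : ℕ} :
    hhB w G.al G.be u v = true ↔ G.hh w u v := by
  unfold hhB Cfg.hh Cfg.f
  rw [elim_false_iff]
  simp only [Bool.and_eq_true, decide_eq_true_eq]

/-- the ends of arcs and edges are less than `n` -/
structure Bd : Prop where
  A : ∀ u v c, G.wA u v = some c → u < n ∧ v < n
  E : ∀ u v c, G.wE u v = some c → u < n ∧ v < n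

variable {G n}

theorem reach_iff {X : Type} [DecidableEq X] {Rb : X → X → Bool} {S : List X} {P : X → X → Prop}
    {x y : X} (hx : x ∈ S)
    (h : ∀ a b, a ∈ S → (Rb a b = true ↔ P a b)) (h' : ∀ a b, a ∈ S → P a b → b ∈ S) :
    y ∈ reachG Rb S x ↔ ReflTransGen P x y := by
  rw [mem_reachG]
  constructor
  · rintro ⟨_, hy⟩
    have key : ReflTransGen P x y ∧ y ∈ S := by
      induction hy with
      | refl => exact ⟨ReflTransGen.refl, hx⟩
      | tail _ h2 ih => exact ⟨ih.1.tail ((h _ _ ih.2).1 h2.1), h2.2⟩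
    exact key.1
  · intro hy
    refine ⟨hx, ?_⟩
    have key : ReflTransGen (fun a b => Rb a b = true ∧ b ∈ S) x y ∧ y ∈ S := by
      induction hy with
      | refl => exact ⟨ReflTransGen.refl, hx⟩
      | tail _ h2 ih =>
        have := h' _ _ ih.2 h2
        exact ⟨ih.1.tail ⟨(h _ _ ih.2).2 h2, this⟩, this⟩
    exact key.1

theorem AH_lt (hb : Bd G n) {u v : ℕ} (h : G.AH u v) : u < n ∧ v < n := by
  obtain ⟨c, hc, _⟩ := h
  exact hb.A u v c hc

theorem EH_lt (hb : Bd G n) {u v : ℕ} (h : G.EH u v) : u < n ∧ v < n := by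
  obtain ⟨c, hc, _⟩ := h
  exact hb.E u v c hc

theorem J1_lt (hb : Bd G n) {u v : ℕ} (h : G.J1 u v) : u < n ∧ v < n := by
  rcases h.1 with ⟨c, hc, _⟩ | ⟨c, hc, _⟩
  · exact hb.A u v c hc
  · exact hb.E u v c hc

theorem J2_lt (hb : Bd G n) {u v : ℕ} (h : G.J2 u v) : u < n ∧ v < n := by
  rcases h.1 with ⟨c, hc, _⟩ | ⟨c, hc, _⟩
  · exact hb.A u v c hc
  · exact hb.E u v c hc

theorem hB_iff {u v : ℕ} : hB G.wA G.wE G.al G.be u v = true ↔ G.H u v := by
  unfold hB Cfg.H Cfg.AH Cfg.EH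
  rw [Bool.or_eq_true, hhB_iff, hhB_iff]

theorem hdB_iff {a b u v : ℕ} : hdB G.wA G.wE G.al G.be a b u v = true ↔
    (G.AH u v ∨ (G.EH u v ∧ ¬ (u = a ∧ v = b))) := by
  unfold hdB Cfg.AH Cfg.EH
  rw [Bool.or_eq_true, hhB_iff, Bool.and_eq_true, hhB_iff, Bool.not_eq_true',
    Bool.and_eq_false_iff, decide_eq_false_iff_not, decide_eq_false_iff_not, not_and_or]

theorem reachH_iff (hb : Bd G n) {x y : ℕ} (hx : x < n) :
    y ∈ reachG (hB G.wA G.wE G.al G.be) (List.range n) x ↔ ReflTransGen G.H x y := by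
  refine reach_iff (List.mem_range.2 hx) (fun a b _ => hB_iff) (fun a b _ h => ?_)
  rcases h with h | h
  · exact List.mem_range.2 (AH_lt hb h).2
  · exact List.mem_range.2 (EH_lt hb h).2

theorem frcB_iff (hb : Bd G n) {x x1 u v : ℕ} (hx : x < n) :
    frcB G.wA G.wE G.al G.be (List.range n) x x1 u v = true ↔ Forced G.AH G.EH x x1 u v := by
  unfold frcB Forced
  rw [Bool.and_eq_true, hhB_iff]
  have h1 : x1 ∈ reachG (hdB G.wA G.wE G.al G.be u v) (List.range n) x ↔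
      ReflTransGen (fun a b => G.AH a b ∨ (G.EH a b ∧ ¬ (a = u ∧ b = v))) x x1 := by
    refine reach_iff (List.mem_range.2 hx) (fun a b _ => hdB_iff) (fun a b _ h => ?_)
    rcases h with h | h
    · exact List.mem_range.2 (AH_lt hb h).2
    · exact List.mem_range.2 (EH_lt hb h.1).2
  rw [Bool.not_eq_true', decide_eq_false_iff_not, h1]
  rfl

theorem hfB_iff (hb : Bd G n) {x x1 u v : ℕ} (hx : x < n) :
    hfB G.wA G.wE G.al G.be (List.range n) x x1 u v = true ↔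
      (G.AH u v ∨ (G.EH u v ∧ ¬ Forced G.AH G.EH x x1 v u)) := by
  unfold hfB
  rw [Bool.or_eq_true, hhB_iff, Bool.and_eq_true, hhB_iff, Bool.not_eq_true',
    ← Bool.not_eq_true, frcB_iff hb hx]
  rfl

theorem kB_iff (hb : Bd G n) {x x1 y1 y : ℕ} (hx : x < n) (hy1 : y1 < n) :
    kB G.wA G.wE G.al G.be (List.range n) x x1 y1 y = true ↔ G.K x x1 y1 y := by
  unfold kB
  rw [Bool.and_eq_true, decide_eq_true_eq, decide_eq_true_eq, reachH_iff hb hx, Cfg.k_iff]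
  have h1 : y ∈ reachG (hfB G.wA G.wE G.al G.be (List.range n) x x1) (List.range n) y1 ↔
      ReflTransGen (fun u v => G.AH u v ∨ (G.EH u v ∧ ¬ Forced G.AH G.EH x x1 v u)) y1 y := by
    refine reach_iff (List.mem_range.2 hy1) (fun a b _ => hfB_iff hb hx) (fun a b _ h => ?_)
    rcases h with h | h
    · exact List.mem_range.2 (AH_lt hb h).2
    · exact List.mem_range.2 (EH_lt hb h.1).2
  rw [h1]

theorem j1B_iff {u v : ℕ} :
    j1B G.wA G.wE G.al G.be G.ga G.D u v = true ↔ G.J1 u v := by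
  unfold j1B Cfg.J1 Cfg.A1 Cfg.E1 Cfg.f
  rw [Bool.and_eq_true, Bool.or_eq_true, ttB_iff, ttB_iff, decide_eq_true_eq]

theorem j2B_iff {u v : ℕ} :
    j2B G.wA G.wE G.al G.be G.de G.D' u v = true ↔ G.J2 u v := by
  unfold j2B Cfg.J2 Cfg.A2 Cfg.E2 Cfg.f
  rw [Bool.and_eq_true, Bool.or_eq_true, ttB_iff, ttB_iff, decide_eq_true_eq]

theorem cfB_iff {x1 x' y1 y' : ℕ} :
    cfB G.wA G.al G.be G.ga G.de G.D G.D' x1 x' y1 y' = true ↔ G.Cf x1 x' y1 y' := by
  unfold cfB Cfg.Cf Cfg.A1 Cfg.A2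
  rw [Bool.and_eq_true, Bool.and_eq_true, Bool.and_eq_true, Bool.not_eq_true',
    Bool.not_eq_true', ← Bool.not_eq_true, ← Bool.not_eq_true, ttB_iff, ttB_iff,
    decide_eq_true_eq, decide_eq_true_eq]

theorem mvB_iff (hb : Bd G n) {p q : ℕ × ℕ} (hp1 : p.1 < n) (_hp2 : p.2 < n) :
    mvB G.wA G.wE G.al G.be G.ga G.de (List.range n) G.D G.D' p q = true ↔ G.Mv p q := by
  unfold mvB Cfg.Mv
  rw [Bool.or_eq_true, Bool.or_eq_true]
  simp only [Bool.and_eq_true, decide_eq_true_eq, List.any_eq_true, List.mem_range, j1B_iff,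
    j2B_iff, Bool.not_eq_true', ← Bool.not_eq_true, cfB_iff]
  refine or_congr (and_congr Iff.rfl (and_congr Iff.rfl ?_)) (or_congr
    (and_congr Iff.rfl (and_congr Iff.rfl ?_)) (and_congr Iff.rfl ?_))
  · constructor
    · rintro ⟨x1, _, h1, h2⟩
      exact ⟨x1, (reachH_iff hb hp1).1 h1, h2⟩
    · rintro ⟨x1, h1, h2⟩
      exact ⟨x1, (J1_lt hb h2).1, (reachH_iff hb hp1).2 h1, h2⟩
  · constructor
    · rintro ⟨y1, h0, h1, h2⟩
      exact ⟨y1, (reachH_iff hb h0).1 h1, h2⟩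
    · rintro ⟨y1, h1, h2⟩
      have h0 := (J2_lt hb h2).2
      exact ⟨y1, h0, (reachH_iff hb h0).2 h1, h2⟩
  · constructor
    · rintro ⟨x1, h0, y1, h0', h1, h2⟩
      exact ⟨x1, y1, (kB_iff hb hp1 h0').1 h1, h2⟩
    · rintro ⟨x1, y1, h1, h2⟩
      have h0 := (J1_lt hb h2.1).1
      have h0' := (J2_lt hb h2.2.1).2
      exact ⟨x1, h0, y1, h0', (kB_iff hb hp1 h0').2 h1, h2⟩

theorem Mv_lt (hb : Bd G n) {p q : ℕ × ℕ} (hp1 : p.1 < n) (hp2 : p.2 < n) (h : G.Mv p q) :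
    q.1 < n ∧ q.2 < n := by
  rcases h with ⟨_, h, x1, _, h'⟩ | ⟨_, h, x1, _, h'⟩ | ⟨_, x1, y1, _, h, h', _⟩
  · exact ⟨(J1_lt hb h').2, by rw [h]; exact hp2⟩
  · exact ⟨by rw [h]; exact hp1, (J2_lt hb h').1⟩
  · exact ⟨(J1_lt hb h).2, (J2_lt hb h').1⟩

theorem mem_pairs {p : ℕ × ℕ} : p ∈ (List.range n).flatMap (fun x => (List.range n).map
    (fun y => (x, y))) ↔ p.1 < n ∧ p.2 < n := by
  simp only [List.mem_flatMap, List.mem_range, List.mem_map]
  constructor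
  · rintro ⟨x, hx, y, hy, rfl⟩
    exact ⟨hx, hy⟩
  · rintro ⟨h1, h2⟩
    exact ⟨p.1, h1, p.2, h2, rfl⟩

/-- **Correctness of the algorithm for the game.** -/
theorem gmB_iff (hb : Bd G n) (hG : G.Ok) {s : ℕ} (hs : s < n) (ht : G.t < n) :
    gmB G.wA G.wE G.al G.be G.ga G.de (List.range n) G.D G.D' s G.t = true ↔ G.Comp s s := by
  rw [Cfg.comp_iff hG]
  unfold gmB
  rw [List.any_eq_true]
  have h0 : (s, s) ∈ (List.range n).flatMap (fun x => (List.range n).map (fun y => (x, y))) :=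
    mem_pairs.2 ⟨hs, hs⟩
  have h1 : ∀ z, z ∈ reachG (mvB G.wA G.wE G.al G.be G.ga G.de (List.range n) G.D G.D')
      ((List.range n).flatMap (fun x => (List.range n).map (fun y => (x, y)))) (s, s) ↔
      ReflTransGen G.Mv (s, s) z := by
    intro z
    refine reach_iff h0 (fun a b ha => ?_) (fun a b ha h => ?_)
    · rw [mem_pairs] at ha
      exact mvB_iff hb ha.1 ha.2
    · rw [mem_pairs] at ha ⊢
      exact Mv_lt hb ha.1 ha.2 h
  have h2 : ∀ z, ReflTransGen G.Mv (s, s) z → z.1 < n ∧ z.2 < n := by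
    intro z hz
    induction hz with
    | refl => exact ⟨hs, hs⟩
    | tail _ h ih => exact Mv_lt hb ih.1 ih.2 h
  constructor
  · rintro ⟨z, hz, hf⟩
    rw [h1] at hz
    refine ⟨z, hz, ?_⟩
    unfold fnB at hf
    rw [Bool.and_eq_true, Bool.and_eq_true, decide_eq_true_eq, decide_eq_true_eq,
      kB_iff hb (h2 z hz).1 ht] at hf
    exact hf
  · rintro ⟨z, hz, hf⟩
    refine ⟨z, (h1 z).2 hz, ?_⟩
    unfold fnB
    rw [Bool.and_eq_true, Bool.and_eq_true, decide_eq_true_eq, decide_eq_true_eq,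
      kB_iff hb (h2 z hz).1 ht]
    exact hf

end

end Pool.Agent.Q189.MG
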