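import Pool.Agent.Q189.MG.Dist
import Pool.Agent.H614R2.DPO.Final

/-!
# Orientations of mixed graphs which preserve two distances: definitions and the algorithm
-/

set_option autoImplicit false

namespace Pool.Agent.Q189.MG

open Relation Pool.Agent.NPC
open Pool.Agent.H614R2.DPO (entry denP reachG bfd Wk)

/-- A mixed graph with the vertices `0, …, n - 1`: undirected edges, arcs, and nonnegative rational
lengths of both. -/
structure MixedGraph (n : ℕ) where
  E : SimpleGraph (Fin n)
  A : Fin n → Fin n → Prop
  lenE : Sym2 (Fin n) → ℚ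
  lenA : Fin n → Fin n → ℚ
  lenE_nonneg : ∀ e ∈ E.edgeSet, 0 ≤ lenE e
  lenA_nonneg : ∀ u v, A u v → 0 ≤ lenA u v

/-- `O` describes an orientation of the undirected edges: every edge `u v` is replaced by exactly one
of the arcs `(u, v)` (if `O u v`) and `(v, u)` (if `O v u`). -/
def IsOrientation {n : ℕ} (M : MixedGraph n) (O : Fin n → Fin n → Prop) : Prop :=
  (∀ u v, O u v → M.E.Adj u v) ∧ ∀ u v, M.E.Adj u v → (O u v ∧ ¬ O v u) ∨ (O v u ∧ ¬ O u v)

/-- `Walk M O u v d`: there is a directed walk of length `d` from `u` to `v` which uses the arcs of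
`M` and the undirected edges of `M` in the directions allowed by `O`. -/
inductive Walk {n : ℕ} (M : MixedGraph n) (O : Fin n → Fin n → Prop) :
    Fin n → Fin n → ℚ → Prop
  | nil (u : Fin n) : Walk M O u u 0
  | arc {u v x : Fin n} {d : ℚ} : M.A u v → Walk M O v x d → Walk M O u x (M.lenA u v + d)
  | edge {u v x : Fin n} {d : ℚ} : M.E.Adj u v → O u v → Walk M O v x d →
      Walk M O u x (M.lenE s(u, v) + d)

/-- The distance from `x` to `y` if the undirected edges may be used in the directions allowed by
`O` (infinity if there is no walk). -/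
noncomputable def dist {n : ℕ} (M : MixedGraph n) (O : Fin n → Fin n → Prop) (x y : Fin n) :
    EReal := ⨅ (d : ℚ) (_ : Walk M O x y d), ((d : ℝ) : EReal)

/-- All directions are allowed: this describes the mixed graph itself. -/
def both {n : ℕ} : Fin n → Fin n → Prop := fun _ _ => True

/-- `M` has an orientation which preserves the distances from `s` to `t` and from `t` to `s`. -/
def Preservable {n : ℕ} (M : MixedGraph n) (s t : Fin n) : Prop :=
  ∃ O, IsOrientation M O ∧ dist M O s t = dist M both s t ∧ dist M O t s = dist M both t s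

/-- the input data: the matrix of the lengths of the edges, the matrix of the lengths of the arcs,
and the two vertices -/
abbrev Data := List (List (Option ℚ)) × List (List (Option ℚ)) × ℕ × ℕ

open Classical in
/-- the data of an instance -/
noncomputable def dataOf {n : ℕ} (M : MixedGraph n) (s t : Fin n) : Data :=
  (List.ofFn fun u => List.ofFn fun v => if M.E.Adj u v then some (M.lenE s(u, v)) else none,
    List.ofFn fun u => List.ofFn fun v => if M.A u v then some (M.lenA u v) else none,
    (s : ℕ), (t : ℕ))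

/-- The input as a bit string: the matrix of the lengths of the edges and the matrix of the lengths
of the arcs (`none` if there is no edge or arc), with rational numbers given by numerator and
denominator in binary, and the two vertices. -/
noncomputable def input {n : ℕ} (M : MixedGraph n) (s t : Fin n) : List Bool :=
  bits (dataOf M s t)

/-! ### The algorithm -/

/-- the lengths, multiplied by `N` -/
def wS (W : List (List (Option ℚ))) (N : ℕ) (u v : ℕ) : Option ℕ :=
  (entry W u v).map (fun q => q.num.natAbs * (N / q.den))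

/-- the common denominator -/
def cd (a : Data) : ℕ := denP a.1 * denP a.2.1

def wEd (a : Data) : ℕ → ℕ → Option ℕ := wS a.1 (cd a)

def wAd (a : Data) : ℕ → ℕ → Option ℕ := wS a.2.1 (cd a)

def wMd (a : Data) : ℕ → ℕ → Option ℕ := wM (wEd a) (wAd a)

/-- the algorithm -/
def alg (a : Data) : Bool :=
  !(decide (a.2.2.2 ∈ reachG (fun u v => (wMd a u v).isSome) (List.range a.1.length) a.2.2.1) &&
    decide (a.2.2.1 ∈ reachG (fun u v => (wMd a u v).isSome) (List.range a.1.length)
      a.2.2.2)) ||
  gmB (wAd a) (wEd a) (bfd (wMd a) a.1.length a.2.2.1) (bfd (rv (wMd a)) a.1.length a.2.2.1)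
    (bfd (rv (wMd a)) a.1.length a.2.2.2) (bfd (wMd a) a.1.length a.2.2.2)
    (List.range a.1.length) (bfd (wMd a) a.1.length a.2.2.1 a.2.2.2)
    (bfd (wMd a) a.1.length a.2.2.2 a.2.2.1) a.2.2.1 a.2.2.2

/-! ### Polynomial time -/

section poly

open Pool.Agent.H614R2.DPO (poly_denP poly_natAbs poly_num poly_den p2_poly_reachG poly_bf bf)

variable {α : Type} [TEnc α]

attribute [local fun_prop] poly_natAbs poly_num poly_den poly_denP

theorem poly_wS {W : α → List (List (Option ℚ))} {N u v : α → ℕ} (hW : Poly W) (hN : Poly N)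
    (hu : Poly u) (hv : Poly v) : Poly (fun a => wS (W a) (N a) (u a) (v a)) := by
  unfold wS entry
  fun_prop

attribute [local fun_prop] poly_wS
attribute [local irreducible] wS

theorem poly_om {f g : α → Option ℕ} (hf : Poly f) (hg : Poly g) :
    Poly (fun a => om (f a) (g a)) := by
  unfold om
  fun_prop

attribute [local fun_prop] poly_om
attribute [local irreducible] om

theorem poly_wEd {a : α → Data} {u v : α → ℕ} (ha : Poly a) (hu : Poly u) (hv : Poly v) :
    Poly (fun x => wEd (a x) (u x) (v x)) := by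
  unfold wEd cd
  fun_prop

theorem poly_wAd {a : α → Data} {u v : α → ℕ} (ha : Poly a) (hu : Poly u) (hv : Poly v) :
    Poly (fun x => wAd (a x) (u x) (v x)) := by
  unfold wAd cd
  fun_prop

attribute [local fun_prop] poly_wEd poly_wAd
attribute [local irreducible] wEd wAd

theorem poly_wMd {a : α → Data} {u v : α → ℕ} (ha : Poly a) (hu : Poly u) (hv : Poly v) :
    Poly (fun x => wMd (a x) (u x) (v x)) := by
  unfold wMd wM
  fun_prop

theorem poly_rwMd {a : α → Data} {u v : α → ℕ} (ha : Poly a) (hu : Poly u) (hv : Poly v) :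
    Poly (fun x => rv (wMd (a x)) (u x) (v x)) := by
  unfold rv
  exact poly_wMd ha hv hu

attribute [local fun_prop] poly_wMd poly_rwMd
attribute [local irreducible] wMd

theorem poly_bfd {a : α → Data} {s v : α → ℕ} (ha : Poly a) (hs : Poly s) (hv : Poly v) :
    Poly (fun x => bfd (wMd (a x)) (a x).1.length (s x) (v x)) := by
  unfold bfd
  refine Poly.getD (poly_bf (w := fun x => wMd (a x)) (n := fun x => (a x).1.length)
    (s := s) ?_ (UPoly.length (Poly.fst ha)) hs) hv (NPC.Poly.const 0)
  exact poly_wMd (a := fun p : α × ℕ × ℕ => a p.1) (ha.comp (Poly.fst Poly.id))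
    (Poly.fst (Poly.snd Poly.id)) (Poly.snd (Poly.snd Poly.id))

theorem poly_rbfd {a : α → Data} {s v : α → ℕ} (ha : Poly a) (hs : Poly s) (hv : Poly v) :
    Poly (fun x => bfd (rv (wMd (a x))) (a x).1.length (s x) (v x)) := by
  unfold bfd
  refine Poly.getD (poly_bf (w := fun x => rv (wMd (a x))) (n := fun x => (a x).1.length)
    (s := s) ?_ (UPoly.length (Poly.fst ha)) hs) hv (NPC.Poly.const 0)
  exact poly_rwMd (a := fun p : α × ℕ × ℕ => a p.1) (ha.comp (Poly.fst Poly.id))
    (Poly.fst (Poly.snd Poly.id)) (Poly.snd (Poly.snd Poly.id))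

attribute [local fun_prop] poly_bfd poly_rbfd
attribute [local irreducible] bfd

theorem poly_alg : Poly alg := by
  unfold alg
  have hR : Poly (fun a : Data => List.range a.1.length) :=
    UPoly.range (UPoly.length (Poly.fst Poly.id))
  have h1 : Poly (fun p : Data × ℕ × ℕ => (wMd p.1 p.2.1 p.2.2).isSome) :=
    Poly.isSome (poly_wMd (a := fun p : Data × ℕ × ℕ => p.1) (Poly.fst Poly.id)
      (Poly.fst (Poly.snd Poly.id)) (Poly.snd (Poly.snd Poly.id)))
  have hs : Poly (fun a : Data => a.2.2.1) := Poly.fst (Poly.snd (Poly.snd Poly.id))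
  have ht : Poly (fun a : Data => a.2.2.2) := Poly.snd (Poly.snd (Poly.snd Poly.id))
  have h2 : Poly (fun a : Data => reachG (fun u v => (wMd a u v).isSome)
      (List.range a.1.length) a.2.2.1) := p2_poly_reachG h1 hR hs
  have h3 : Poly (fun a : Data => reachG (fun u v => (wMd a u v).isSome)
      (List.range a.1.length) a.2.2.2) := p2_poly_reachG h1 hR ht
  refine Poly.or (Poly.not (Poly.and (Poly.dec_mem ht h2) (Poly.dec_mem hs h3))) ?_
  refine poly_gmB ?_ ?_ ?_ ?_ ?_ ?_ hR ?_ ?_ hs ht
  · exact poly_wAd (a := fun p : Data × ℕ × ℕ => p.1) (Poly.fst Poly.id)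
      (Poly.fst (Poly.snd Poly.id)) (Poly.snd (Poly.snd Poly.id))
  · exact poly_wEd (a := fun p : Data × ℕ × ℕ => p.1) (Poly.fst Poly.id)
      (Poly.fst (Poly.snd Poly.id)) (Poly.snd (Poly.snd Poly.id))
  · exact poly_bfd (a := fun p : Data × ℕ => p.1) (Poly.fst Poly.id)
      (hs.comp (Poly.fst Poly.id)) (Poly.snd Poly.id)
  · exact poly_rbfd (a := fun p : Data × ℕ => p.1) (Poly.fst Poly.id)
      (hs.comp (Poly.fst Poly.id)) (Poly.snd Poly.id)
  · exact poly_rbfd (a := fun p : Data × ℕ => p.1) (Poly.fst Poly.id)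
      (ht.comp (Poly.fst Poly.id)) (Poly.snd Poly.id)
  · exact poly_bfd (a := fun p : Data × ℕ => p.1) (Poly.fst Poly.id)
      (ht.comp (Poly.fst Poly.id)) (Poly.snd Poly.id)
  · exact poly_bfd Poly.id hs ht
  · exact poly_bfd Poly.id ht hs

end poly

end Pool.Agent.Q189.MG
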